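import Pool.Agent.Helper45.SP.GoalsFG
import Pool.Agent.Helper19.Lin.IDT

set_option autoImplicit false

/-! # SP-FGM: the alternative (discrete, or a commutative family of generators) -/

open Complex Metric Set Filter Topology
open scoped ContDiff ComplexConjugate

namespace Pool.Agent.Helper63.SP

open Pool.Agent.Helper95.Lin Pool.Agent.Helper10.SP Pool.Agent.Helper45.SP

/-- identity theorem for fields on a ball, extended by zero -/
lemma field_zero {b : ℕ} {z₀ : Cn b} {r : ℝ} {V : Cn b → Cn b}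
    (hV : DifferentiableOn ℂ V (ball z₀ r)) (hV0 : ∀ z, z ∉ ball z₀ r → V z = 0) {x : Cn b} {ρ : ℝ}
    (hρ : 0 < ρ) (hx : ball x ρ ⊆ ball z₀ r) (h : ∀ z ∈ ball x ρ, V z = 0) : V = 0 := by
  funext z
  by_cases hz : z ∈ ball z₀ r
  · refine Pool.Agent.Helper19.Lin.idt (ball z₀ r) isOpen_ball (convex_ball z₀ r).isPreconnected
      V hV x (hx (mem_ball_self hρ)) ?_ z hz
    filter_upwards [ball_mem_nhds x hρ] with w hw using h w hw
  · exact hV0 z hz

lemma brV_add {b : ℕ} {V V' W : Cn b → Cn b} {z : Cn b} (hV : DifferentiableAt ℂ V z)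
    (hV' : DifferentiableAt ℂ V' z) : brV (V + V') W z = brV V W z + brV V' W z := by
  unfold brV
  rw [fderiv_add hV hV']
  simp only [Pi.add_apply, map_add, add_apply]
  abel

lemma brV_smul {b : ℕ} {V W : Cn b → Cn b} {z : Cn b} (hV : DifferentiableAt ℂ V z) (a : ℝ) :
    brV (a • V) W z = a • brV V W z := by
  unfold brV
  rw [fderiv_const_smul hV a]
  simp only [Pi.smul_apply, smul_apply, smul_sub]
  congr 1
  exact (fderiv ℂ W z).map_smul_of_tower a (V z)

/-- The center as a submodule. -/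
lemma exists_Z (hADD : S_LADD') (hFIN : S_LFIN) {b : ℕ} {z₀ : Cn b} {r : ℝ} {A : Set (Tri b)}
    (h : LGrp z₀ r A) : ∃ Z : Submodule ℝ (Cn b → Cn b), (∀ V, V ∈ Z ↔ InZL z₀ r A V) ∧
      FiniteDimensional ℝ Z := by
  obtain ⟨a0, a1, a2⟩ := hADD h
  let L : Submodule ℝ (Cn b → Cn b) :=
    { carrier := {V | InLL z₀ r A V}
      add_mem' := fun {V W} hV hW => a1 V W hV hW
      zero_mem' := a0
      smul_mem' := fun a V hV => a2 V hV a }
  have hL : ∀ V, V ∈ L ↔ InLL z₀ r A V := fun V => Iff.rfl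
  have hLf : FiniteDimensional ℝ L := hFIN h L hL
  have dif : ∀ V, InLL z₀ r A V → ∀ z ∈ ball z₀ r, DifferentiableAt ℂ V z := fun V hV z hz =>
    (hV.1 z hz).differentiableAt (isOpen_ball.mem_nhds hz)
  let Z : Submodule ℝ (Cn b → Cn b) :=
    { carrier := {V | InZL z₀ r A V}
      add_mem' := fun {V V'} hV hV' => ⟨a1 V V' hV.1 hV'.1, fun W hW z hz => by
        rw [brV_add (dif V hV.1 z hz) (dif V' hV'.1 z hz), hV.2 W hW z hz, hV'.2 W hW z hz,
          add_zero]⟩
      zero_mem' := ⟨a0, fun W _ z _ => by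
        have h0 : fderiv ℂ (0 : Cn b → Cn b) z = 0 := by
          have : (0 : Cn b → Cn b) = fun _ => 0 := rfl
          rw [this]; exact fderiv_const_apply _
        simp [brV, h0]⟩
      smul_mem' := fun a V hV => ⟨a2 V hV.1 a, fun W hW z hz => by
        rw [brV_smul (dif V hV.1 z hz) a, hV.2 W hW z hz, smul_zero]⟩ }
  have hZ : ∀ V, V ∈ Z ↔ InZL z₀ r A V := fun V => Iff.rfl
  have hZL : Z ≤ L := fun V hV => (hL V).2 ((hZ V).1 hV).1
  exact ⟨Z, hZ, Submodule.finiteDimensional_of_le hZL⟩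

/-- Transport of the center by a map of the pseudogroup. -/
lemma transport (hPG : S_PG) (hCONJ : S_CONJ) (hZTR : S_ZTRANS) {b N : ℕ} {c : Fin N → Cn b}
    {R : ℝ} {P : Set (Cn b) → Tri b → Prop} {Φ : Cn b → ℝ} {C : ℝ} (h : AFol c R P Φ C)
    (i j : Fin N) (Zi Zj : Submodule ℝ (Cn b → Cn b))
    (hZi : ∀ V, V ∈ Zi ↔ InZL (c i) 4 {t | Big c P i t} V)
    (hZj : ∀ V, V ∈ Zj ↔ InZL (c j) 4 {t | Big c P j t} V)
    {U : Set (Cn b)} {t : Tri b} (hP : P U t) {x : Cn b} (hx : x ∈ U) (hxi : x ∈ ball (c i) 2)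
    (hxj : t.g x ∈ ball (c j) 2) :
    ∃ T : Zi →ₗ[ℝ] Zj, Function.Injective T ∧ ∃ d > 0, ball x d ⊆ U ∧
      ∀ V : Zi, ∀ z ∈ ball x d, (T V : Cn b → Cn b) (t.g z) =
        fderiv ℂ t.g z ((V : Cn b → Cn b) z) := by
  obtain ⟨d, d', k, hd, hd', hdU, hd4, hd4', hmaps, hk, hkm, hkinv, -, hη, hη'⟩ :=
    hCONJ c R P Φ C h i j U t hP x hx hxi hxj
  have hLi := (hPG c R P Φ C h i).toLGrp
  have hLj := (hPG c R P Φ C h j).toLGrp
  obtain ⟨hUo, -, htg, -, -, -⟩ := h.holo U t hP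
  have key := hZTR hLi hLj x (t.g x) d d' t.g k hd hd' hd4 hd4' (htg.mono hdU) hmaps hk hkm
    hkinv hη hη'
  -- uniqueness
  have uniq : ∀ V' ∈ Zj, (∀ z ∈ ball x d, V' (t.g z) = 0) → V' = 0 := by
    intro V' hV' h0
    have hV'' := ((hZj V').1 hV').1
    refine field_zero hV''.1 hV''.2.1 hd' hd4' fun w hw => ?_
    have := h0 (k w) (hkm hw)
    rwa [hkinv w hw] at this
  have key' : ∀ V : Zi, ∃ V' : Zj, ∀ z ∈ ball x d, (V' : Cn b → Cn b) (t.g z) =
      fderiv ℂ t.g z ((V : Cn b → Cn b) z) := by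
    intro V
    obtain ⟨V', h1, h2⟩ := key V ((hZi V).1 V.2)
    exact ⟨⟨V', (hZj V').2 h1⟩, h2⟩
  choose F hF using key'
  have uniq' : ∀ V' V'' : Zj, (∀ z ∈ ball x d, (V' : Cn b → Cn b) (t.g z) =
      (V'' : Cn b → Cn b) (t.g z)) → V' = V'' := by
    intro V' V'' h0
    have := uniq (V' - V'') (Zj.sub_mem V'.2 V''.2) (fun z hz => by
      rw [Pi.sub_apply, h0 z hz, sub_self])
    exact Subtype.ext (sub_eq_zero.1 this)
  let T : Zi →ₗ[ℝ] Zj :=
    { toFun := F
      map_add' := fun V W => uniq' _ _ fun z hz => by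
        rw [hF, Submodule.coe_add, Submodule.coe_add, Pi.add_apply, Pi.add_apply, map_add,
          hF V z hz, hF W z hz]
        exact hz
      map_smul' := fun a V => uniq' _ _ fun z hz => by
        rw [hF _ z hz, RingHom.id_apply, Submodule.coe_smul, Submodule.coe_smul, Pi.smul_apply,
          Pi.smul_apply, hF V z hz]
        exact (fderiv ℂ t.g z).map_smul_of_tower a _ }
  refine ⟨T, ?_, d, hd, hdU, fun V z hz => hF V z hz⟩
  rw [injective_iff_map_eq_zero]
  intro V hV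
  have hVi := ((hZi V).1 V.2).1
  have : (V : Cn b → Cn b) = 0 := by
    refine field_zero hVi.1 hVi.2.1 hd hd4 fun z hz => ?_
    have h1 := hF V z hz
    have h2 : F V = 0 := hV
    rw [h2, Submodule.coe_zero, Pi.zero_apply] at h1
    have h3 := (h.pot U t hP z (hdU hz)).1
    by_contra hne
    apply h3
    rw [ContinuousLinearMap.det]
    exact LinearMap.det_eq_zero_iff_ker_ne_bot.2 fun hbot =>
      hne ((LinearMap.ker_eq_bot'.1 hbot) _ h1.symm)
  exact Subtype.ext this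

lemma disj {b N : ℕ} {c : Fin N → Cn b} {R : ℝ} {P : Set (Cn b) → Tri b → Prop} {Φ : Cn b → ℝ}
    {C : ℝ} (h : AFol c R P Φ C) {i j : Fin N} {z : Cn b} (hi : z ∈ ball (c i) 4)
    (hj : z ∈ ball (c j) 4) : i = j := by
  by_contra hne
  have h1 := h.sep i j hne
  have h2 := h.Rge
  have h3 := h.Cge
  rw [mem_ball, dist_comm] at hi
  rw [mem_ball] at hj
  have h4 : ‖c i - c j‖ ≤ dist (c i) z + dist z (c j) := by
    rw [← dist_eq_norm]; exact dist_triangle _ _ _
  linarith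

/-- SP-FGM -/
theorem FGM (hPG : S_PG) (hCONJ : S_CONJ) (hLEXT : S_LEXT) (hLADD : S_LADD') (hLFIN : S_LFIN)
    (hLCENT : S_LCENT) (hZTR : S_ZTRANS) : S_FGM := by
  intro b N c R P Φ C h
  have hG := fun i => hPG c R P Φ C h i
  choose Z hZ hZf using fun i => exists_Z hLADD hLFIN (hG i).toLGrp
  have s24 : ∀ i, ball (c i) 2 ⊆ ball (c i) 4 := fun i => ball_subset_ball (by norm_num)
  have s34 : ∀ i, ball (c i) 3 ⊆ ball (c i) 4 := fun i => ball_subset_ball (by norm_num)
  have s23 : ∀ i, ball (c i) 2 ⊆ ball (c i) 3 := fun i => ball_subset_ball (by norm_num)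
  have dimle : ∀ i j U t, P U t → ∀ x ∈ U, x ∈ ball (c i) 2 → t.g x ∈ ball (c j) 2 →
      Module.finrank ℝ (Z i) ≤ Module.finrank ℝ (Z j) := by
    intro i j U t hP x hx hxi hxj
    obtain ⟨T, hT, -⟩ := transport hPG hCONJ hZTR h i j (Z i) (Z j) (hZ i) (hZ j) hP hx hxi hxj
    exact LinearMap.finrank_le_finrank_of_injective hT
  have dimeq : ∀ i j U t, P U t → ∀ x ∈ U, x ∈ ball (c i) 2 → t.g x ∈ ball (c j) 2 →
      Module.finrank ℝ (Z i) = Module.finrank ℝ (Z j) := by
    intro i j U t hP x hx hxi hxj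
    refine le_antisymm (dimle i j U t hP x hx hxi hxj) ?_
    obtain ⟨s, U', U'', hPs, hxU', -, hxU'', -, -, heq⟩ := h.inv U t hP x hx
    have h1 : s.g (t.g x) = x := (heq x hxU'').1
    exact dimle j i U' s hPs (t.g x) hxU' hxj (by rw [h1]; exact hxi)
  let i0 : Fin N := ⟨0, h.posN⟩
  obtain ⟨m, hm⟩ : ∃ m, Module.finrank ℝ (Z i0) = m := ⟨_, rfl⟩
  have cmem : ∀ i, c i ∈ ball (c i) 2 := fun i => mem_ball_self (by norm_num)
  have memBd : ∀ (r : ℝ) z, z ∈ Bd c r ↔ ∃ i, z ∈ ball (c i) r := fun r z => mem_iUnion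
  let S : Set (Cn b) := {z | ∃ i, z ∈ ball (c i) 2 ∧ Module.finrank ℝ (Z i) = m}
  have hSsub : S ⊆ Bd c 2 := fun z ⟨i, hi, _⟩ => (memBd 2 z).2 ⟨i, hi⟩
  have hSo : IsOpen S := by
    rw [isOpen_iff_forall_mem_open]
    rintro z ⟨i, hi, hd⟩
    exact ⟨ball (c i) 2, fun w hw => ⟨i, hw, hd⟩, isOpen_ball, hi⟩
  have hSc : IsOpen (Bd c 2 \ S) := by
    rw [isOpen_iff_forall_mem_open]
    rintro z ⟨hz, hzS⟩
    obtain ⟨i, hi⟩ := (memBd 2 z).1 hz
    refine ⟨ball (c i) 2, fun w hw => ⟨(memBd 2 w).2 ⟨i, hw⟩, ?_⟩, isOpen_ball, hi⟩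
    rintro ⟨j, hj, hd⟩
    have : i = j := disj h (s24 i hw) (s24 j hj)
    subst this
    exact hzS ⟨i, hi, hd⟩
  have hinv : ∀ U t, P U t → ∀ z ∈ U, z ∈ Bd c 2 → t.g z ∈ Bd c 2 → (z ∈ S ↔ t.g z ∈ S) := by
    intro U t hP z hz hz2 htz2
    obtain ⟨i, hi⟩ := (memBd 2 z).1 hz2
    obtain ⟨j, hj⟩ := (memBd 2 _).1 htz2
    have hd := dimeq i j U t hP z hz hi hj
    constructor
    · rintro ⟨i', hi', hd'⟩
      have : i = i' := disj h (s24 i hi) (s24 i' hi')
      subst this
      exact ⟨j, hj, hd ▸ hd'⟩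
    · rintro ⟨j', hj', hd'⟩
      have : j = j' := disj h (s24 j hj) (s24 j' hj')
      subst this
      exact ⟨i, hi, hd.trans hd'⟩
  have hdim : ∀ i, Module.finrank ℝ (Z i) = m := by
    intro i
    rcases h.conn S hSsub hSo hSc hinv with h1 | h1
    · exfalso
      have : c i0 ∈ S := ⟨i0, cmem i0, hm⟩
      rw [h1] at this
      exact this
    · have : c i ∈ S := by rw [h1]; exact (memBd 2 _).2 ⟨i, cmem i⟩
      obtain ⟨j, hj, hd⟩ := this
      have : i = j := disj h (s24 i (cmem i)) (s24 j hj)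
      subst this
      exact hd
  rcases Nat.eq_zero_or_pos m with hm0 | hmpos
  · left
    have hzero : ∀ i, ∀ V, InLL (c i) 4 {t | Big c P i t} V → ∀ z ∈ ball (c i) 4, V z = 0 := by
      intro i V hV z hz
      by_contra hne
      obtain ⟨V', hV', ⟨w, hw, hne'⟩, hc⟩ := hLCENT (hG i) ⟨V, hV, z, hz, hne⟩
      have h1 : V' ∈ Z i := (hZ i V').2 ⟨hV', hc⟩
      have h2 : Z i = ⊥ := by
        have := hZf i
        exact Submodule.finrank_eq_zero.1 ((hdim i).trans hm0)
      rw [h2, Submodule.mem_bot] at h1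
      exact hne' (by rw [h1]; rfl)
    choose η hη hηp using fun i => hLEXT (hG i).toLGrp (hzero i)
    have : Nonempty (Fin N) := ⟨i0⟩
    obtain ⟨i1, hi1⟩ := Finite.exists_min η
    refine ⟨min 1 (η i1), lt_min one_pos (hη i1), fun i t hP hnear z hz => ?_⟩
    refine hηp i t ⟨hP, c i, cmem i, (memBd 2 _).2 ⟨i, ?_⟩⟩ ?_ z hz
    · have h1 := hnear (c i) (s23 i (cmem i))
      rw [mem_ball, dist_eq_norm]
      exact (h1.trans (min_le_left _ _)).trans_lt (by norm_num)
    · intro w hw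
      have hw2 : w ∈ ball (c i) 2 := by
        have : (4 : ℝ) / 2 = 2 := by norm_num
        rwa [this] at hw
      exact (hnear w (s23 i hw2)).trans ((min_le_right _ _).trans (hi1 i))
  · right
    have B : ∀ i, Module.Basis (Fin m) ℝ (Z i) := fun i =>
      haveI := hZf i
      Module.finBasisOfFinrankEq ℝ (Z i) (hdim i)
    classical
    let V : Fin m → Cn b → Cn b := fun k z => ∑ i, if z ∈ ball (c i) 3 then
      ((B i k : Z i) : Cn b → Cn b) z else 0
    have hV : ∀ i k, ∀ z ∈ ball (c i) 3, V k z = ((B i k : Z i) : Cn b → Cn b) z := by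
      intro i k z hz
      show (∑ j, if z ∈ ball (c j) 3 then ((B j k : Z j) : Cn b → Cn b) z else 0) = _
      rw [Finset.sum_eq_single i, if_pos hz]
      · intro j _ hj
        rw [if_neg]
        intro hzj
        exact hj (disj h (s34 j hzj) (s34 i hz))
      · intro hi; exact absurd (Finset.mem_univ i) hi
    have hVe : ∀ i k, ∀ z ∈ ball (c i) 3, V k =ᶠ[𝓝 z] ((B i k : Z i) : Cn b → Cn b) := by
      intro i k z hz
      filter_upwards [isOpen_ball.mem_nhds hz] with w hw using hV i k w hw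
    have hLL : ∀ i (W : Z i), InLL (c i) 4 {t | Big c P i t} (W : Cn b → Cn b) :=
      fun i W => ((hZ i W).1 W.2).1
    have hdif : ∀ i (W : Z i), ∀ z ∈ ball (c i) 4, DifferentiableAt ℂ (W : Cn b → Cn b) z :=
      fun i W z hz => ((hLL i W).1 z hz).differentiableAt (isOpen_ball.mem_nhds hz)
    have hcomb : ∀ i (x : Fin m → ℝ), ∀ z ∈ ball (c i) 3, ∑ k, (x k : ℂ) • V k z =
        ((∑ k, x k • B i k : Z i) : Cn b → Cn b) z := by
      intro i x z hz
      rw [Submodule.coe_sum, Finset.sum_apply]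
      refine Finset.sum_congr rfl fun k _ => ?_
      rw [hV i k z hz, Submodule.coe_smul, Pi.smul_apply, Complex.coe_smul]
    refine ⟨m, V, hmpos, ?_, ?_, ?_, ?_, ?_, ?_⟩
    · -- holo
      intro k z hz
      obtain ⟨i, hi⟩ := (memBd 3 z).1 hz
      exact ((hdif i (B i k) z (s34 i hi)).congr_of_eventuallyEq
        (hVe i k z hi)).differentiableWithinAt
    · -- bdd
      have hb : ∀ i k, ∃ M : ℝ, 0 ≤ M ∧ ∀ z ∈ ball (c i) 3, ‖V k z‖ ≤ M := by
        intro i k
        have hcont : ContinuousOn ((B i k : Z i) : Cn b → Cn b) (closedBall (c i) 3) :=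
          fun z hz => (hdif i (B i k) z
            (closedBall_subset_ball (by norm_num) hz)).continuousAt.continuousWithinAt
        obtain ⟨M, hM⟩ := (isCompact_closedBall (c i) 3).exists_bound_of_continuousOn hcont
        refine ⟨max M 0, le_max_right _ _, fun z hz => ?_⟩
        rw [hV i k z hz]
        exact (hM z (ball_subset_closedBall hz)).trans (le_max_left _ _)
      choose M hM0 hM using hb
      refine ⟨∑ i, ∑ k, M i k, fun k z hz => ?_⟩
      obtain ⟨i, hi⟩ := (memBd 3 z).1 hz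
      calc ‖V k z‖ ≤ M i k := hM i k z hi
        _ ≤ ∑ k, M i k := Finset.single_le_sum (f := fun k => M i k) (fun k _ => hM0 i k)
            (Finset.mem_univ k)
        _ ≤ ∑ i, ∑ k, M i k := Finset.single_le_sum (f := fun i => ∑ k, M i k)
            (fun i _ => Finset.sum_nonneg fun k _ => hM0 i k) (Finset.mem_univ i)
    · -- indep
      intro i x hx
      have h1 : ((∑ k, x k • B i k : Z i) : Cn b → Cn b) = 0 := by
        refine field_zero (hLL i _).1 (hLL i _).2.1 (by norm_num : (0 : ℝ) < 3) (s34 i)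
          fun z hz => ?_
        rw [← hcomb i x z hz]; exact hx z hz
      have h2 : (∑ k, x k • B i k : Z i) = 0 := Subtype.ext h1
      funext k
      exact Fintype.linearIndependent_iff.1 (B i).linearIndependent x h2 k
    · -- comm
      intro z hz k l
      obtain ⟨i, hi⟩ := (memBd 3 z).1 hz
      have h1 := ((hZ i _).1 (B i k).2).2 _ (hLL i (B i l)) z (s34 i hi)
      unfold brV at h1
      rw [(hVe i l z hi).fderiv_eq, (hVe i k z hi).fderiv_eq, hV i k z hi, hV i l z hi]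
      exact sub_eq_zero.1 h1
    · -- gen
      intro i x
      have hW := hLL i (∑ k, x k • B i k)
      refine ⟨?_, ?_⟩
      · refine ((hW.1.mono (s34 i))).congr fun z hz => hcomb i x z hz
      · have h3 := hW.2.2 3 (by norm_num)
        have h4 : ∀ n : ℕ, ∃ (t : Tri b) (σ : ℝ), 0 < σ ∧ σ ≤ 1 / ((n : ℝ) + 1) ∧
            P (ball (c i) 4) t ∧ ∀ z ∈ ball (c i) 3,
              ‖t.g z - z - σ • ((∑ k, x k • B i k : Z i) : Cn b → Cn b) z‖ ≤
                1 / ((n : ℝ) + 1) * σ := by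
          intro n
          have hn : (0 : ℝ) < 1 / ((n : ℝ) + 1) := by positivity
          obtain ⟨σ₀, hσ₀, hσ⟩ := h3 _ hn
          have hpos : 0 < min (σ₀ / 2) (1 / ((n : ℝ) + 1)) := lt_min (by positivity) hn
          obtain ⟨t, ht, htz⟩ := hσ (min (σ₀ / 2) (1 / ((n : ℝ) + 1))) hpos
            ((min_le_left _ _).trans_lt (by linarith))
          exact ⟨t, _, hpos, min_le_right _ _, ht.1, htz⟩
        choose t σ hσ0 hσ1 hPt htz using h4
        refine ⟨t, σ, hPt, hσ0, ?_, ?_⟩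
        · exact squeeze_zero (fun n => (hσ0 n).le) hσ1 tendsto_one_div_add_atTop_nhds_zero_nat
        · intro ε hε
          have h5 := (tendsto_one_div_add_atTop_nhds_zero_nat (𝕜 := ℝ)).eventually
            (gt_mem_nhds hε)
          filter_upwards [h5] with n hn z hz
          have h6 : (σ n : ℂ) • (∑ k, (x k : ℂ) • V k z) =
              σ n • ((∑ k, x k • B i k : Z i) : Cn b → Cn b) z := by
            rw [hcomb i x z hz, Complex.coe_smul]
          show ‖(t n).g z - z - (σ n : ℂ) • (∑ k, (x k : ℂ) • V k z)‖ ≤ ε * σ n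
          rw [h6]
          exact (htz n z hz).trans (mul_le_mul_of_nonneg_right hn.le (hσ0 n).le)
    · -- trans
      intro U t hP z hz hz2 htz2
      obtain ⟨i, hi⟩ := (memBd 2 z).1 hz2
      obtain ⟨j, hj⟩ := (memBd 2 _).1 htz2
      obtain ⟨T, hT, d, hd, hdU, hTV⟩ :=
        transport hPG hCONJ hZTR h i j (Z i) (Z j) (hZ i) (hZ j) hP hz hi hj
      have := hZf i
      have := hZf j
      let e : Z i ≃ₗ[ℝ] Z j := LinearEquiv.ofInjectiveOfFinrankEq T hT
        ((hdim i).trans (hdim j).symm)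
      have he : ∀ W, e W = T W := fun W => rfl
      obtain ⟨hUo, -, htg, -, -, -⟩ := h.holo U t hP
      refine ⟨LinearMap.toMatrix (B i) (B j) T,
        (ball z d ∩ ball (c i) 3) ∩ (U ∩ t.g ⁻¹' ball (c j) 3), ?_, ?_, ?_, ?_, ?_⟩
      · have := LinearEquiv.isUnit_det e (B i) (B j)
        exact this.ne_zero
      · exact (isOpen_ball.inter isOpen_ball).inter
          (htg.continuousOn.isOpen_inter_preimage hUo isOpen_ball)
      · exact ⟨⟨mem_ball_self hd, s23 i hi⟩, hz, s23 j hj⟩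
      · exact fun w hw => hw.2.1
      · rintro w ⟨⟨hwd, hwi⟩, hwU, hwj⟩ k
        rw [hV i k w hwi, ← hTV (B i k) w hwd]
        refine Eq.trans ?_ (hcomb j (fun l => LinearMap.toMatrix (B i) (B j) T l k) (t.g w)
          hwj).symm
        have h5 : T (B i k) = ∑ l, LinearMap.toMatrix (B i) (B j) T l k • B j l := by
          simp only [LinearMap.toMatrix_apply]
          exact ((B j).sum_repr (T (B i k))).symm
        rw [← h5]

end Pool.Agent.Helper63.SP
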