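import Pool.Agent.Helper10.SP.GoalsA

set_option autoImplicit false

/-! # SP-LA: linear algebra of the second fundamental form -/

open Complex Matrix
open scoped ComplexConjugate ComplexOrder Matrix MatrixOrder

namespace Pool.Agent.Helper63.SP

open Pool.Agent.Helper95.Lin Pool.Agent.Helper16.Abund Pool.Agent.Helper92.Orb
open Pool.Agent.Helper10.SP

variable {n : ℕ}

lemma mc_mul (X Y : Matrix (Fin n) (Fin n) ℂ) : mc (X * Y) = mc X * mc Y := by
  unfold mc; exact Matrix.map_mul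

lemma mc_mc (X : Matrix (Fin n) (Fin n) ℂ) : mc (mc X) = X := by
  ext a b; simp [mc]

lemma mc_one : mc (1 : Matrix (Fin n) (Fin n) ℂ) = 1 := by
  unfold mc; exact Matrix.map_one _ (map_zero _) (map_one _)

lemma mc_transpose (X : Matrix (Fin n) (Fin n) ℂ) : (mc X)ᵀ = Xᴴ := by
  ext a b; simp [mc]

lemma conjT_transpose (X : Matrix (Fin n) (Fin n) ℂ) : (Xᴴ)ᵀ = mc X := by
  ext a b; simp [mc]

lemma mc_of_symm {X : Matrix (Fin n) (Fin n) ℂ} (h : X.IsSymm) : mc X = Xᴴ := by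
  have h1 : Xᴴ = mc (Xᵀ) := by ext a b; simp [mc]
  rw [h1, h.eq]

/-- Reduction to symmetric matrices. -/
lemma core {A : Matrix (Fin n) (Fin n) ℂ} (hA : A.PosDef) :
    ∃ B C : Matrix (Fin n) (Fin n) ℂ, C * B = 1 ∧ B * C = 1 ∧
      ∀ X, (A * X).IsSymm → (B * X * mc C).IsSymm := by
  obtain ⟨B, hB⟩ := CStarAlgebra.nonneg_iff_eq_star_mul_self.mp hA.posSemidef.nonneg
  rw [Matrix.star_eq_conjTranspose] at hB
  have hdet : IsUnit B.det := by
    rw [isUnit_iff_ne_zero]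
    intro h0
    have h1 := hA.det_pos
    rw [hB, Matrix.det_mul, h0, mul_zero] at h1
    exact lt_irrefl _ h1
  refine ⟨B, B⁻¹, Matrix.nonsing_inv_mul B hdet, Matrix.mul_nonsing_inv B hdet, ?_⟩
  set C := B⁻¹ with hC
  have h1 : C * B = 1 := Matrix.nonsing_inv_mul B hdet
  have h2 : B * C = 1 := Matrix.mul_nonsing_inv B hdet
  intro X hX
  have h3 : Xᵀ * Bᵀ * mc B = Bᴴ * B * X := by
    have := hX.eq
    rw [hB, Matrix.transpose_mul, Matrix.transpose_mul, conjT_transpose, ← Matrix.mul_assoc] at this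
    exact this
  have h4 : mc B * mc C = 1 := by rw [← mc_mul, h2, mc_one]
  have h5 : Xᵀ * Bᵀ = Bᴴ * B * X * mc C := by
    rw [← h3, Matrix.mul_assoc (Xᵀ * Bᵀ), h4, Matrix.mul_one]
  have h6 : Cᴴ * Bᴴ = 1 := by rw [← Matrix.conjTranspose_mul, h2, Matrix.conjTranspose_one]
  unfold Matrix.IsSymm
  rw [Matrix.transpose_mul, Matrix.transpose_mul, mc_transpose, h5]
  simp only [← Matrix.mul_assoc]
  rw [h6, Matrix.one_mul]

lemma trace_re_im (Z : Matrix (Fin n) (Fin n) ℂ) :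
    Matrix.trace (Z * Zᴴ) = ((∑ a, ∑ b, ‖Z a b‖ ^ 2 : ℝ) : ℂ) := by
  simp only [Matrix.trace, Matrix.diag, Matrix.mul_apply, Matrix.conjTranspose_apply]
  push_cast
  refine Finset.sum_congr rfl fun a _ => Finset.sum_congr rfl fun b _ => ?_
  rw [← Complex.mul_conj']
  rfl

lemma cs (Z W : Matrix (Fin n) (Fin n) ℂ) :
    ‖Matrix.trace (Z * Wᴴ)‖ ^ 2 ≤ (∑ a, ∑ b, ‖Z a b‖ ^ 2) * ∑ a, ∑ b, ‖W a b‖ ^ 2 := by
  have h1 : ‖Matrix.trace (Z * Wᴴ)‖ ≤ ∑ p : Fin n × Fin n, ‖Z p.1 p.2‖ * ‖W p.1 p.2‖ := by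
    simp only [Matrix.trace, Matrix.diag, Matrix.mul_apply, Matrix.conjTranspose_apply]
    rw [Fintype.sum_prod_type]
    refine (norm_sum_le _ _).trans (Finset.sum_le_sum fun a _ => ?_)
    refine (norm_sum_le _ _).trans (Finset.sum_le_sum fun b _ => ?_)
    rw [norm_mul, norm_star]
  have h2 := Finset.sum_mul_sq_le_sq_mul_sq (Finset.univ : Finset (Fin n × Fin n))
    (fun p => ‖Z p.1 p.2‖) (fun p => ‖W p.1 p.2‖)
  calc ‖Matrix.trace (Z * Wᴴ)‖ ^ 2 ≤ (∑ p : Fin n × Fin n, ‖Z p.1 p.2‖ * ‖W p.1 p.2‖) ^ 2 :=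
        pow_le_pow_left₀ (norm_nonneg _) h1 2
    _ ≤ _ := h2
    _ = _ := by rw [Fintype.sum_prod_type, Fintype.sum_prod_type]

lemma core2 {A : Matrix (Fin n) (Fin n) ℂ} (hA : A.PosDef) (X Y : Matrix (Fin n) (Fin n) ℂ)
    (hX : (A * X).IsSymm) (hY : (A * Y).IsSymm) :
    (Matrix.trace (X * mc X)).im = 0 ∧ 0 ≤ (Matrix.trace (X * mc X)).re ∧
    (Matrix.trace (X * mc X) = 0 → X = 0) ∧
    ‖Matrix.trace (X * mc Y)‖ ^ 2 ≤
      (Matrix.trace (X * mc X)).re * (Matrix.trace (Y * mc Y)).re ∧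
    (Matrix.trace (X * mc X * (X * mc X))).im = 0 ∧
    (Matrix.trace (X * mc X)).re ^ 2 ≤ n * (Matrix.trace (X * mc X * (X * mc X))).re := by
  obtain ⟨B, C, h1, h2, h3⟩ := core hA
  have key : ∀ X Y : Matrix (Fin n) (Fin n) ℂ, (A * X).IsSymm → (A * Y).IsSymm →
      B * (X * mc Y) * C = (B * X * mc C) * (B * Y * mc C)ᴴ := by
    intro X Y _ hY
    rw [← mc_of_symm (h3 Y hY), mc_mul, mc_mul, mc_mc]
    have h4 : mc C * mc B = 1 := by rw [← mc_mul, h1, mc_one]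
    calc B * (X * mc Y) * C = B * X * (1 : Matrix (Fin n) (Fin n) ℂ) * mc Y * C := by
          simp only [Matrix.mul_assoc, Matrix.one_mul]
      _ = _ := by rw [← h4]; simp only [Matrix.mul_assoc]
  have tr : ∀ M : Matrix (Fin n) (Fin n) ℂ, Matrix.trace (B * M * C) = Matrix.trace M := by
    intro M
    rw [Matrix.trace_mul_comm, ← Matrix.mul_assoc, h1, Matrix.one_mul]
  have hXX := key X X hX hX
  have hXY := key X Y hX hY
  have hYY := key Y Y hY hY
  set Z := B * X * mc C with hZ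
  set W := B * Y * mc C with hW
  have tXX : Matrix.trace (X * mc X) = ((∑ a, ∑ b, ‖Z a b‖ ^ 2 : ℝ) : ℂ) := by
    rw [← tr, hXX, trace_re_im]
  have tYY : Matrix.trace (Y * mc Y) = ((∑ a, ∑ b, ‖W a b‖ ^ 2 : ℝ) : ℂ) := by
    rw [← tr, hYY, trace_re_im]
  have tXY : Matrix.trace (X * mc Y) = Matrix.trace (Z * Wᴴ) := by
    rw [← tr, hXY]
  have t4 : Matrix.trace (X * mc X * (X * mc X)) =
      ((∑ a, ∑ b, ‖(Z * Zᴴ) a b‖ ^ 2 : ℝ) : ℂ) := by
    have h5 : (Z * Zᴴ)ᴴ = Z * Zᴴ := by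
      rw [Matrix.conjTranspose_mul, Matrix.conjTranspose_conjTranspose]
    rw [← trace_re_im, h5, ← hXX, ← tr (X * mc X * (X * mc X))]
    congr 1
    calc B * (X * mc X * (X * mc X)) * C
        = B * (X * mc X) * (1 : Matrix (Fin n) (Fin n) ℂ) * (X * mc X) * C := by
          simp only [Matrix.mul_assoc, Matrix.one_mul]
      _ = _ := by rw [← h1]; simp only [Matrix.mul_assoc]
  rw [tXX, tYY, tXY, t4]
  simp only [Complex.ofReal_im, Complex.ofReal_re, true_and]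
  refine ⟨by positivity, ?_, cs Z W, ?_⟩
  · intro h0
    have h5 : (∑ a, ∑ b, ‖Z a b‖ ^ 2 : ℝ) = 0 := by exact_mod_cast h0
    have h6 : Z = 0 := by
      ext a b
      have h7 := (Finset.sum_eq_zero_iff_of_nonneg (fun a _ => by positivity)).1 h5 a
        (Finset.mem_univ a)
      have h8 := (Finset.sum_eq_zero_iff_of_nonneg (fun b _ => by positivity)).1 h7 b
        (Finset.mem_univ b)
      simpa using h8
    have h4 : mc C * mc B = 1 := by rw [← mc_mul, h1, mc_one]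
    calc X = (C * B) * X * (mc C * mc B) := by rw [h1, h4, Matrix.one_mul, Matrix.mul_one]
      _ = C * Z * mc B := by rw [hZ]; simp only [Matrix.mul_assoc]
      _ = 0 := by rw [h6, Matrix.mul_zero, Matrix.zero_mul]
  · have h5 : (∑ a, ∑ b, ‖Z a b‖ ^ 2 : ℝ) ≤ ∑ a, ‖(Z * Zᴴ) a a‖ := by
      have h6 : ((∑ a, ∑ b, ‖Z a b‖ ^ 2 : ℝ) : ℂ) = ∑ a, (Z * Zᴴ) a a := by
        rw [← trace_re_im]; rfl
      calc (∑ a, ∑ b, ‖Z a b‖ ^ 2 : ℝ) ≤ ‖((∑ a, ∑ b, ‖Z a b‖ ^ 2 : ℝ) : ℂ)‖ := by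
            rw [Complex.norm_real]; exact le_abs_self _
        _ ≤ _ := by rw [h6]; exact norm_sum_le _ _
    have h7 := Finset.sum_mul_sq_le_sq_mul_sq (Finset.univ : Finset (Fin n))
      (fun _ => (1 : ℝ)) (fun a => ‖(Z * Zᴴ) a a‖)
    simp only [one_mul, one_pow, Finset.sum_const, Finset.card_univ, Fintype.card_fin,
      nsmul_eq_mul, mul_one] at h7
    have h8 : ∑ a, ‖(Z * Zᴴ) a a‖ ^ 2 ≤ ∑ a, ∑ b, ‖(Z * Zᴴ) a b‖ ^ 2 :=
      Finset.sum_le_sum fun a _ => Finset.single_le_sum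
        (f := fun b => ‖(Z * Zᴴ) a b‖ ^ 2) (fun b _ => by positivity) (Finset.mem_univ a)
    calc (∑ a, ∑ b, ‖Z a b‖ ^ 2 : ℝ) ^ 2 ≤ (∑ a, ‖(Z * Zᴴ) a a‖) ^ 2 :=
          pow_le_pow_left₀ (by positivity) h5 2
      _ ≤ _ := h7
      _ ≤ _ := mul_le_mul_of_nonneg_left h8 (Nat.cast_nonneg n)

/-- SP-LA. -/
theorem la : S_LA := by
  intro n i H v hH hvi _ honly X Y hX hY hsX hsY
  have hHt : Hᵀ.PosSemidef := hH.transpose
  set E : Matrix (Fin n) (Fin n) ℂ := Matrix.diagonal (Pi.single i 1) with hE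
  have hEX : ∀ X : Matrix (Fin n) (Fin n) ℂ, (∀ l, X i l = 0) → (Hᵀ + E) * X = Hᵀ * X := by
    intro X hX
    rw [Matrix.add_mul]
    have : E * X = 0 := by
      ext a b
      rw [hE, Matrix.diagonal_mul, Matrix.zero_apply]
      by_cases h : a = i
      · rw [h, hX b, mul_zero]
      · rw [Pi.single_eq_of_ne h, zero_mul]
    rw [this, add_zero]
  have hEs : E.PosSemidef := by
    rw [hE]
    refine Matrix.PosSemidef.diagonal fun a => ?_
    by_cases h : a = i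
    · rw [h, Pi.single_eq_same]; exact zero_le_one
    · rw [Pi.single_eq_of_ne h]; exact le_refl _
  have hAs : (Hᵀ + E).PosSemidef := hHt.add hEs
  have hA : (Hᵀ + E).PosDef := by
    refine Matrix.PosDef.of_dotProduct_mulVec_pos hAs.isHermitian fun x hx => ?_
    refine lt_of_le_of_ne (hAs.dotProduct_mulVec_nonneg x) fun h0 => hx ?_
    have h1 := hHt.dotProduct_mulVec_nonneg x
    have h2 := hEs.dotProduct_mulVec_nonneg x
    rw [Matrix.add_mulVec, dotProduct_add] at h0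
    have h3 := (add_eq_zero_iff_of_nonneg h1 h2).1 h0.symm
    have h4 := (hHt.dotProduct_mulVec_zero_iff x).1 h3.1
    have h5 := (hEs.dotProduct_mulVec_zero_iff x).1 h3.2
    have h6 : x i = 0 := by
      have := congrFun h5 i
      rw [hE, Matrix.mulVec_diagonal, Pi.single_eq_same, one_mul] at this
      exact this
    obtain ⟨c, hc⟩ := honly x (fun k => by
      have := congrFun h4 k
      simpa [Matrix.mulVec, dotProduct] using this)
    have h7 : c = 0 := by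
      have := congrFun hc i
      rw [h6, Pi.smul_apply, hvi, smul_eq_mul, mul_one] at this
      exact this.symm
    rw [hc, h7, zero_smul]
  exact core2 hA X Y (by rw [hEX X hX]; exact hsX) (by rw [hEX Y hY]; exact hsY)

end Pool.Agent.Helper63.SP
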