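import Pool.Agent.Helper10.SP.GoalsT
import Pool.Agent.Helper95.Lin.Basics

set_option autoImplicit false

/-! # SP-POIN: the Poincaré inequality on an étale relation -/

open Complex Metric Set Filter Topology MeasureTheory
open scoped ContDiff ComplexConjugate ComplexOrder Manifold

namespace Pool.Agent.Helper63.SP

open Pool.Agent.Helper95.Lin Pool.Agent.Helper16.Abund Pool.Agent.Helper92.Orb
open Pool.Agent.Helper10.SP

universe u v

/-- mean over a ball -/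
noncomputable def mB {n : ℕ} (φ : Cn n → ℝ) (x : Cn n) (r : ℝ) : ℝ :=
  (∫ z in ball x r, φ z) / volume.real (ball x r)

/-- variance over a ball -/
noncomputable def VB {n : ℕ} (φ : Cn n → ℝ) (x : Cn n) (r : ℝ) : ℝ :=
  ∫ z in ball x r, (φ z - mB φ x r) ^ 2

lemma vol_pos {n : ℕ} (x : Cn n) {r : ℝ} (hr : 0 < r) : 0 < volume.real (ball x r) :=
  ENNReal.toReal_pos (measure_ball_pos volume x hr).ne' measure_ball_lt_top.ne

lemma int_ball {n : ℕ} {T : Set (Cn n)} {g : Cn n → ℝ} (hg : ContinuousOn g T) {x : Cn n} {r : ℝ}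
    (hB : closedBall x r ⊆ T) : IntegrableOn g (ball x r) :=
  ((hg.mono hB).integrableOn_compact (isCompact_closedBall x r)).mono_set ball_subset_closedBall

instance fin_ball {n : ℕ} (x : Cn n) (r : ℝ) : IsFiniteMeasure (volume.restrict (ball x r)) :=
  ⟨by rw [Measure.restrict_apply_univ]; exact measure_ball_lt_top⟩

lemma int_quad {n : ℕ} {φ : Cn n → ℝ} {x : Cn n} {r : ℝ}
    (h1 : IntegrableOn φ (ball x r)) (h2 : IntegrableOn (fun z => φ z ^ 2) (ball x r))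
    (a b c : ℝ) :
    ∫ z in ball x r, (a * φ z ^ 2 + b * φ z + c) = a * (∫ z in ball x r, φ z ^ 2) +
      b * (∫ z in ball x r, φ z) + c * volume.real (ball x r) := by
  have e1 : Integrable (fun z => a * φ z ^ 2) (volume.restrict (ball x r)) := h2.const_mul a
  have e2 : Integrable (fun z => b * φ z) (volume.restrict (ball x r)) := h1.const_mul b
  have e3 : Integrable (fun z => a * φ z ^ 2 + b * φ z) (volume.restrict (ball x r)) := e1.add e2
  rw [integral_add e3 (integrable_const c), integral_add e1 e2, integral_const_mul,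
    integral_const_mul, integral_const]
  simp only [MeasurableSet.univ, measureReal_restrict_apply, univ_inter, smul_eq_mul]
  ring

lemma sq_int {n : ℕ} (φ : Cn n → ℝ) (x : Cn n) (r : ℝ)
    (h1 : IntegrableOn φ (ball x r)) (h2 : IntegrableOn (fun z => φ z ^ 2) (ball x r)) (m : ℝ) :
    ∫ z in ball x r, (φ z - m) ^ 2 = (∫ z in ball x r, φ z ^ 2) -
      2 * m * (∫ z in ball x r, φ z) + m ^ 2 * volume.real (ball x r) := by
  have e : ∀ z, (φ z - m) ^ 2 = 1 * φ z ^ 2 + (- (2 * m)) * φ z + m ^ 2 := fun z => by ring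
  simp_rw [e]
  rw [int_quad h1 h2]
  ring

lemma VB_eq {n : ℕ} (φ : Cn n → ℝ) (x : Cn n) {r : ℝ} (hr : 0 < r)
    (h1 : IntegrableOn φ (ball x r)) (h2 : IntegrableOn (fun z => φ z ^ 2) (ball x r)) :
    ∫ z in ball x r, ∫ w in ball x r, (φ z - φ w) ^ 2 =
      2 * volume.real (ball x r) * VB φ x r := by
  have hv := vol_pos x hr
  have e1 : ∀ z, ∫ w in ball x r, (φ z - φ w) ^ 2 = volume.real (ball x r) * φ z ^ 2 +
      (- (2 * ∫ w in ball x r, φ w)) * φ z + ∫ w in ball x r, φ w ^ 2 := by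
    intro z
    have := sq_int φ x r h1 h2 (φ z)
    have e : ∀ w, (φ z - φ w) ^ 2 = (φ w - φ z) ^ 2 := fun w => by ring
    simp_rw [e]
    rw [this]
    ring
  simp_rw [e1]
  rw [int_quad h1 h2]
  unfold VB
  rw [sq_int φ x r h1 h2]
  unfold mB
  field_simp
  ring

lemma VB_le (hPOIL : S_POIL) {n : ℕ} (x : Cn n) {r : ℝ} (hr : 0 < r) : ∃ K : ℝ, 0 ≤ K ∧
    ∀ (φ : Cn n → ℝ) (U : Set (Cn n)), IsOpen U → closedBall x r ⊆ U → ContDiffOn ℝ ∞ φ U →
      VB φ x r ≤ K * ∫ z in ball x r, ‖fderiv ℝ φ z‖ ^ 2 := by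
  obtain ⟨K, hK⟩ := hPOIL x r hr
  have hv := vol_pos x hr
  refine ⟨max K 0 / (2 * volume.real (ball x r)), by positivity, fun φ U hU hxU hφ => ?_⟩
  have h1 : IntegrableOn φ (ball x r) := int_ball hφ.continuousOn hxU
  have h2 : IntegrableOn (fun z => φ z ^ 2) (ball x r) := int_ball (hφ.continuousOn.pow 2) hxU
  have h3 := hK φ U hU hxU hφ
  rw [VB_eq φ x hr h1 h2] at h3
  have h4 : 0 ≤ ∫ z in ball x r, ‖fderiv ℝ φ z‖ ^ 2 := integral_nonneg fun z => by positivity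
  have h5 : K * (∫ z in ball x r, ‖fderiv ℝ φ z‖ ^ 2) ≤
      max K 0 * ∫ z in ball x r, ‖fderiv ℝ φ z‖ ^ 2 :=
    mul_le_mul_of_nonneg_right (le_max_left _ _) h4
  rw [div_mul_eq_mul_div, le_div_iff₀ (by positivity)]
  linarith

lemma sub_le {n : ℕ} {f : Cn n → ℝ} {A B : Set (Cn n)} (hAB : A ⊆ B) (hf : ∀ x, 0 ≤ f x)
    (hB : IntegrableOn f B) : ∫ x in A, f x ≤ ∫ x in B, f x :=
  setIntegral_mono_set hB (Filter.Eventually.of_forall hf) (Filter.Eventually.of_forall hAB)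

lemma sqm_int {n : ℕ} {T : Set (Cn n)} {φ : Cn n → ℝ} (hφ : ContinuousOn φ T) {x : Cn n} {r : ℝ}
    (hB : closedBall x r ⊆ T) (m : ℝ) : IntegrableOn (fun z => (φ z - m) ^ 2) (ball x r) :=
  int_ball ((hφ.sub continuousOn_const).pow 2) hB

/-- Comparison of the means over two balls joined by an arrow. -/
lemma arrow_le {n : ℕ} {T U : Set (Cn n)} {τ : Cn n → Cn n} (hU : IsOpen U) (hUT : U ⊆ T)
    (hτ : DifferentiableOn ℂ τ U) (hinj : InjOn τ U) (hdet : ∀ x ∈ U, (fderiv ℂ τ x).det ≠ 0)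
    {x₁ x₂ z₀ : Cn n} {r₁ r₂ ρ : ℝ} (hr : 0 < ρ) (h1 : closedBall x₁ r₁ ⊆ T)
    (h2 : closedBall x₂ r₂ ⊆ T) (hρU : closedBall z₀ ρ ⊆ U) (hρ1 : ball z₀ ρ ⊆ ball x₁ r₁)
    (hρ2 : ∀ z ∈ ball z₀ ρ, τ z ∈ ball x₂ r₂) :
    ∃ K : ℝ, 0 ≤ K ∧ ∀ φ : Cn n → ℝ, ContinuousOn φ T → (∀ z ∈ U, φ (τ z) = φ z) →
      (mB φ x₁ r₁ - mB φ x₂ r₂) ^ 2 ≤ K * (VB φ x₁ r₁ + VB φ x₂ r₂) := by
  have hcont : ContinuousOn (fun z => ‖(fderiv ℂ τ z).det‖ ^ 2) U := by
    have h3 : ContinuousOn (fderiv ℂ τ) U :=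
      (holo_fderiv hU hτ).continuousOn
    exact ((ContinuousLinearMap.continuous_det.comp_continuousOn h3).norm).pow 2
  obtain ⟨c, hc, hcB⟩ : ∃ c : ℝ, 0 < c ∧ ∀ z ∈ closedBall z₀ ρ, c ≤ ‖(fderiv ℂ τ z).det‖ ^ 2 := by
    obtain ⟨z₁, hz₁, hz₂⟩ := (isCompact_closedBall z₀ ρ).exists_isMinOn
      ⟨z₀, mem_closedBall_self hr.le⟩ (hcont.mono hρU)
    refine ⟨‖(fderiv ℂ τ z₁).det‖ ^ 2, ?_, fun z hz => hz₂ hz⟩
    have := hdet z₁ (hρU hz₁)
    positivity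
  have hv := vol_pos z₀ hr
  refine ⟨(2 + 2 / c) / volume.real (ball z₀ ρ), by positivity, fun φ hφ hinv => ?_⟩
  set m₁ := mB φ x₁ r₁ with hm₁
  set m₂ := mB φ x₂ r₂ with hm₂
  have i1 : IntegrableOn (fun z => (φ z - m₁) ^ 2) (ball x₁ r₁) := sqm_int hφ h1 m₁
  have i2 : IntegrableOn (fun z => (φ z - m₂) ^ 2) (ball x₂ r₂) := sqm_int hφ h2 m₂
  have j1 : IntegrableOn (fun z => (φ z - m₁) ^ 2) (ball z₀ ρ) := sqm_int hφ (hρU.trans hUT) m₁
  have j2 : IntegrableOn (fun z => (φ z - m₂) ^ 2) (ball z₀ ρ) := sqm_int hφ (hρU.trans hUT) m₂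
  have V1 : ∫ z in ball z₀ ρ, (φ z - m₁) ^ 2 ≤ VB φ x₁ r₁ :=
    sub_le hρ1 (fun x => sq_nonneg _) i1
  have j3 : IntegrableOn (fun z => ‖(fderiv ℂ τ z).det‖ ^ 2 * (φ z - m₂) ^ 2) (ball z₀ ρ) :=
    int_ball (hcont.mul (((hφ.mono hUT).sub continuousOn_const).pow 2)) hρU
  have V2 : c * ∫ z in ball z₀ ρ, (φ z - m₂) ^ 2 ≤ VB φ x₂ r₂ := by
    have hd : ∀ x ∈ ball z₀ ρ, HasFDerivWithinAt τ ((fderiv ℂ τ x).restrictScalars ℝ)
        (ball z₀ ρ) x := by
      intro x hx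
      exact ((hτ.differentiableAt (hU.mem_nhds
        (hρU (ball_subset_closedBall hx)))).hasFDerivAt.restrictScalars ℝ).hasFDerivWithinAt
    have h3 := integral_image_eq_integral_abs_det_fderiv_smul (volume : Measure (Cn n))
      measurableSet_ball hd (hinj.mono (ball_subset_closedBall.trans hρU))
      (fun z => (φ z - m₂) ^ 2)
    have h4 : ∫ z in τ '' ball z₀ ρ, (φ z - m₂) ^ 2 ≤ VB φ x₂ r₂ :=
      sub_le (image_subset_iff.2 hρ2) (fun x => sq_nonneg _) i2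
    rw [h3] at h4
    refine le_trans ?_ h4
    rw [← integral_const_mul]
    have h5 : ∫ x in ball z₀ ρ, |((fderiv ℂ τ x).restrictScalars ℝ).det| • (φ (τ x) - m₂) ^ 2 =
        ∫ z in ball z₀ ρ, ‖(fderiv ℂ τ z).det‖ ^ 2 * (φ z - m₂) ^ 2 := by
      refine setIntegral_congr_fun measurableSet_ball fun z hz => ?_
      simp only [smul_eq_mul, Pool.Agent.Helper36.Abund.det_restrictScalars_eq]
      rw [abs_of_nonneg (by positivity), hinv z (hρU (ball_subset_closedBall hz))]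
    rw [h5]
    refine setIntegral_mono_on (j2.const_mul c) j3 measurableSet_ball fun z hz => ?_
    exact mul_le_mul_of_nonneg_right (hcB z (ball_subset_closedBall hz)) (sq_nonneg _)
  have V3 : volume.real (ball z₀ ρ) * (m₁ - m₂) ^ 2 ≤ 2 * (∫ z in ball z₀ ρ, (φ z - m₁) ^ 2) +
      2 * ∫ z in ball z₀ ρ, (φ z - m₂) ^ 2 := by
    have e1 : volume.real (ball z₀ ρ) * (m₁ - m₂) ^ 2 = ∫ _ in ball z₀ ρ, (m₁ - m₂) ^ 2 := by
      rw [integral_const]
      simp only [MeasurableSet.univ, measureReal_restrict_apply, univ_inter, smul_eq_mul]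
    rw [e1, ← integral_const_mul, ← integral_const_mul,
      ← integral_add (j1.const_mul 2) (j2.const_mul 2)]
    refine setIntegral_mono_on (integrable_const _) ((j1.const_mul 2).add (j2.const_mul 2))
      measurableSet_ball fun z _ => ?_
    nlinarith [sq_nonneg ((φ z - m₁) + (φ z - m₂))]
  have V4 : ∫ z in ball z₀ ρ, (φ z - m₂) ^ 2 ≤ VB φ x₂ r₂ / c := by
    rw [le_div_iff₀ hc]
    linarith
  have n1 : 0 ≤ VB φ x₁ r₁ := integral_nonneg fun z => sq_nonneg _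
  have n2 : 0 ≤ VB φ x₂ r₂ := integral_nonneg fun z => sq_nonneg _
  rw [div_mul_eq_mul_div, le_div_iff₀ hv]
  have V5 : (2 + 2 / c) * (VB φ x₁ r₁ + VB φ x₂ r₂) =
      2 * VB φ x₁ r₁ + 2 * (VB φ x₂ r₂ / c) + (2 * VB φ x₂ r₂ + 2 / c * VB φ x₁ r₁) := by
    ring
  have V6 : 0 ≤ 2 * VB φ x₂ r₂ + 2 / c * VB φ x₁ r₁ := by positivity
  rw [V5]
  linarith

/-- The graph of the balls is connected. -/
lemma conn_all {n : ℕ} {T : Set (Cn n)} {G : Type u} [Group G]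
    {R : G → Cn n → Cn n → Prop} (h : Et T R) {ι : Type v} {Bs : ι → Set (Cn n)}
    (hB : ∀ i, IsOpen (Bs i)) (hBn : ∀ i, (Bs i).Nonempty) (hBT : ∀ i, Bs i ⊆ T)
    (rel : ι → ι → Prop) (hsymm : ∀ i j, rel i j → rel j i)
    (htrans : ∀ i j k, rel i j → rel j k → rel i k)
    (harr : ∀ i j γ x y, R γ x y → x ∈ Bs i → y ∈ Bs j → rel i j)
    (hcov : ∀ x ∈ T, ∃ i γ y, R γ x y ∧ y ∈ Bs i) : ∀ i j, rel i j := by
  intro i₀ j₀
  have key : ∀ P : ι → Prop, IsOpen {x | ∃ i γ y, R γ x y ∧ y ∈ Bs i ∧ P i} := by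
    intro P
    rw [isOpen_iff_mem_nhds]
    rintro x ⟨i, γ, y, hR, hy, hP⟩
    obtain ⟨τ, U, W, hU, hW, hxU, hyW, hUT, hWT, hτ, hinj, hmaps, hdet, hiff⟩ := h.loc γ x y hR
    have e : y = τ x := (hiff x hxU y hyW).1 hR
    have h1 : U ∩ τ ⁻¹' (Bs i) ∈ 𝓝 x :=
      (hτ.continuousOn.isOpen_inter_preimage hU (hB i)).mem_nhds ⟨hxU, by
        rw [mem_preimage, ← e]; exact hy⟩
    refine mem_of_superset h1 ?_
    rintro x' ⟨hx', hx''⟩
    exact ⟨i, γ, τ x', (hiff x' hx' (τ x') (hmaps hx')).2 rfl, hx'', hP⟩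
  set S := {x | ∃ i γ y, R γ x y ∧ y ∈ Bs i ∧ rel i i₀} with hS
  have hST : S ⊆ T := by
    rintro x ⟨i, γ, y, hR, _, _⟩
    exact (h.mem γ x y hR).1
  have hSc : T \ S = {x | ∃ i γ y, R γ x y ∧ y ∈ Bs i ∧ ¬ rel i i₀} := by
    ext x
    constructor
    · rintro ⟨hx, hxS⟩
      obtain ⟨i, γ, y, hR, hy⟩ := hcov x hx
      exact ⟨i, γ, y, hR, hy, fun hr => hxS ⟨i, γ, y, hR, hy, hr⟩⟩
    · rintro ⟨i, γ, y, hR, hy, hr⟩
      refine ⟨(h.mem γ x y hR).1, ?_⟩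
      rintro ⟨i', γ', y', hR', hy', hr'⟩
      exact hr (htrans _ _ _ (harr i i' _ _ _ (h.mul _ _ _ _ _ (h.inv _ _ _ hR) hR') hy hy') hr')
  have hinv : ∀ γ x y, R γ x y → x ∈ S → y ∈ S := by
    rintro γ x y hR ⟨i, γ', z, hR', hz, hr⟩
    exact ⟨i, _, z, h.mul _ _ _ _ _ (h.inv _ _ _ hR) hR', hz, hr⟩
  obtain ⟨x₀, hx₀⟩ := hBn i₀
  obtain ⟨y₀, hy₀⟩ := hBn j₀
  have hrefl : rel i₀ i₀ := harr i₀ i₀ 1 x₀ x₀ (h.one x₀ (hBT i₀ hx₀)) hx₀ hx₀
  rcases h.conn S hST (key _) (by rw [hSc]; exact key _)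
    (fun γ x y hR => ⟨hinv γ x y hR, hinv _ y x (h.inv _ _ _ hR)⟩) with h1 | h1
  · exfalso
    have : x₀ ∈ S := ⟨i₀, 1, x₀, h.one x₀ (hBT i₀ hx₀), hx₀, hrefl⟩
    rw [h1] at this
    exact this
  · have : y₀ ∈ S := by rw [h1]; exact hBT j₀ hy₀
    obtain ⟨i, γ, y, hR, hy, hr⟩ := this
    exact htrans _ _ _ (hsymm _ _ hr) (hsymm _ _ (harr j₀ i γ y₀ y hR hy₀ hy))

lemma cover_le {n : ℕ} {ι : Type v} [Fintype ι] {B : ι → Set (Cn n)}
    (hBm : ∀ i, MeasurableSet (B i)) {C : Set (Cn n)} (hC : MeasurableSet C)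
    (hCB : C ⊆ ⋃ i, B i) {f : Cn n → ℝ} (hf : ∀ x, 0 ≤ f x) (hfB : ∀ i, IntegrableOn f (B i))
    (hfC : IntegrableOn f C) : ∫ x in C, f x ≤ ∑ i, ∫ x in B i, f x := by
  rw [← integral_indicator hC]
  have e : ∑ i, ∫ x in B i, f x = ∫ x, ∑ i, (B i).indicator f x := by
    rw [integral_finsetSum]
    · refine Finset.sum_congr rfl fun i _ => ?_
      rw [integral_indicator (hBm i)]
    · intro i _
      exact (hfB i).integrable_indicator (hBm i)
  rw [e]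
  refine integral_mono (hfC.integrable_indicator hC)
    (integrable_finsetSum _ fun i _ => (hfB i).integrable_indicator (hBm i)) fun x => ?_
  simp only
  by_cases hx : x ∈ C
  · rw [indicator_of_mem hx]
    obtain ⟨i, hi⟩ := mem_iUnion.1 (hCB hx)
    have h1 : f x = (B i).indicator f x := (indicator_of_mem hi f).symm
    rw [h1]
    refine Finset.single_le_sum (f := fun j => (B j).indicator f x) (fun j _ => ?_)
      (Finset.mem_univ i)
    exact indicator_nonneg (fun y _ => hf y) x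
  · rw [indicator_of_notMem hx]
    exact Finset.sum_nonneg fun j _ => indicator_nonneg (fun y _ => hf y) x

lemma fderiv_le {n : ℕ} {φ : Cn n → ℝ} {x : Cn n} (hφ : DifferentiableAt ℝ φ x) :
    ‖fderiv ℝ φ x‖ ^ 2 ≤ 2 * n * ∑ j, ‖cdb j (fun y => (φ y : ℂ)) x‖ ^ 2 := by
  set D := fderiv ℝ φ x with hD
  have hfd : fderiv ℝ (fun y => (φ y : ℂ)) x = ofRealCLM.comp D :=
    (ofRealCLM.hasFDerivAt.comp x hφ.hasFDerivAt).fderiv
  have hc : ∀ j, ‖cdb j (fun y => (φ y : ℂ)) x‖ ^ 2 =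
      D (Pi.single j 1) ^ 2 + D (Pi.single j I) ^ 2 := by
    intro j
    unfold cdb
    rw [hfd]
    simp only [ContinuousLinearMap.comp_apply, ofRealCLM_apply]
    rw [← normSq_eq_norm_sq, mul_comm I, normSq_add_mul_I]
  have h1 : ‖D‖ ≤ ∑ j, (|D (Pi.single j 1)| + |D (Pi.single j I)|) := by
    refine D.opNorm_le_bound (Finset.sum_nonneg fun j _ => by positivity) fun v => ?_
    have e : v = ∑ j, ((v j).re • (Pi.single j 1 : Cn n) + (v j).im • (Pi.single j I : Cn n)) := by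
      ext k
      rw [Finset.sum_apply, Finset.sum_eq_single k]
      · simp only [Pi.add_apply, Pi.smul_apply, Pi.single_eq_same, real_smul, mul_one]
        exact (re_add_im _).symm
      · intro j _ hj
        simp [Pi.single_eq_of_ne (Ne.symm hj)]
      · intro hk
        exact absurd (Finset.mem_univ k) hk
    have e2 : D v = ∑ j, ((v j).re * D (Pi.single j 1) + (v j).im * D (Pi.single j I)) := by
      conv_lhs => rw [e]
      rw [map_sum]
      refine Finset.sum_congr rfl fun j _ => ?_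
      rw [map_add, map_smul, map_smul, smul_eq_mul, smul_eq_mul]
    rw [e2, Real.norm_eq_abs, Finset.sum_mul]
    refine (Finset.abs_sum_le_sum_abs _ _).trans (Finset.sum_le_sum fun j _ => ?_)
    refine (abs_add_le _ _).trans ?_
    rw [abs_mul, abs_mul, add_mul]
    have n1 : |(v j).re| ≤ ‖v‖ := (abs_re_le_norm _).trans (norm_le_pi_norm v j)
    have n2 : |(v j).im| ≤ ‖v‖ := (abs_im_le_norm _).trans (norm_le_pi_norm v j)
    have m1 := mul_le_mul_of_nonneg_right n1 (abs_nonneg (D (Pi.single j 1)))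
    have m2 := mul_le_mul_of_nonneg_right n2 (abs_nonneg (D (Pi.single j I)))
    linarith
  have h2 : ‖D‖ ^ 2 ≤ (∑ j, (|D (Pi.single j 1)| + |D (Pi.single j I)|)) ^ 2 :=
    pow_le_pow_left₀ (norm_nonneg _) h1 2
  have h3 : (∑ j, (|D (Pi.single j 1)| + |D (Pi.single j I)|)) ^ 2 ≤
      n * ∑ j, (|D (Pi.single j 1)| + |D (Pi.single j I)|) ^ 2 := by
    have := sq_sum_le_card_mul_sum_sq (s := (Finset.univ : Finset (Fin n)))
      (f := fun j => |D (Pi.single j 1)| + |D (Pi.single j I)|)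
    simpa using this
  have h4 : ∑ j, (|D (Pi.single j 1)| + |D (Pi.single j I)|) ^ 2 ≤
      2 * ∑ j, ‖cdb j (fun y => (φ y : ℂ)) x‖ ^ 2 := by
    rw [Finset.mul_sum]
    refine Finset.sum_le_sum fun j _ => ?_
    rw [hc j]
    nlinarith [sq_nonneg (|D (Pi.single j 1)| - |D (Pi.single j I)|), sq_abs (D (Pi.single j 1)),
      sq_abs (D (Pi.single j I))]
  have h5 : (n : ℝ) * ∑ j, (|D (Pi.single j 1)| + |D (Pi.single j I)|) ^ 2 ≤
      n * (2 * ∑ j, ‖cdb j (fun y => (φ y : ℂ)) x‖ ^ 2) :=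
    mul_le_mul_of_nonneg_left h4 (Nat.cast_nonneg n)
  linarith

lemma cdb_cont {n : ℕ} {T : Set (Cn n)} (hT : IsOpen T) {s : Cn n → ℂ}
    (hs : ContDiffOn ℝ ∞ s T) (j : Fin n) : ContinuousOn (fun x => cdb j s x) T := by
  have h1 : ContinuousOn (fderiv ℝ s) T := hs.continuousOn_fderiv_of_isOpen hT (by simp)
  unfold cdb
  exact (h1.clm_apply continuousOn_const).add
    (continuousOn_const.mul (h1.clm_apply continuousOn_const))

/-- The energy of an invariant function over a ball is controlled by the global integral. -/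
lemma energy_le (hDETI : S_DETI.{u}) (hL2C : S_L2C.{u}) {n : ℕ} {T : Set (Cn n)} {G : Type u}
    [Group G] {R : G → Cn n → Cn n → Prop} {H : Cn n → Matrix (Fin n) (Fin n) ℂ} (hK : KEt T R H)
    {κ : Cn n → ℝ} (hκ : IsPUE T R κ) (x : Cn n) (r : ℝ) (hx : closedBall x r ⊆ T) :
    ∃ L : ℝ, ∀ φ, InvF T R φ → ∫ z in ball x r, ‖fderiv ℝ φ z‖ ^ 2 ≤
      L * (dipE T κ (fun x => (H x).det.re) H (fun x => (φ x : ℂ)) fun x => (φ x : ℂ)).re := by
  obtain ⟨d1, d2, d3, d4, d5, d6⟩ := hDETI T R H hK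
  have hW : Wt T R 0 (fun x => (H x).det.re) := by
    refine ⟨fun x hx => (d1 x hx).2.1, d2, fun U τ hA x hx => ?_⟩
    simp only [mul_zero, pow_zero, mul_one]
    exact ((d5 U τ hA x hx).1).symm
  obtain ⟨B, hB⟩ := hL2C T R H hK κ hκ 0 _ hW (closedBall x r) hx (isCompact_closedBall x r)
  refine ⟨2 * n * B, fun φ hφ => ?_⟩
  have hs : ContDiffOn ℝ ∞ (fun x => (φ x : ℂ)) T := ofRealCLM.contDiff.comp_contDiffOn hφ.1
  have hsec : Sec T R 0 (fun x => (φ x : ℂ)) := by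
    refine ⟨hs, fun U τ hA x hx => ?_⟩
    obtain ⟨hU, hτ, γ, hγ⟩ := hA
    simp only [pow_zero, mul_one]
    rw [hφ.2 γ x (τ x) (hγ x hx)]
  obtain ⟨_, hB2⟩ := hB _ hsec
  have hT := hK.et.isOpen
  have hc1 : ContinuousOn (fun z => ‖fderiv ℝ φ z‖ ^ 2) T :=
    ((hφ.1.continuousOn_fderiv_of_isOpen hT (by simp)).norm).pow 2
  have hc2 : ContinuousOn (fun z => ∑ j, ‖cdb j (fun y => (φ y : ℂ)) z‖ ^ 2) T :=
    continuousOn_finsetSum _ fun j _ => ((cdb_cont hT hs j).norm).pow 2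
  have i1 : IntegrableOn (fun z => ‖fderiv ℝ φ z‖ ^ 2) (closedBall x r) :=
    (hc1.mono hx).integrableOn_compact (isCompact_closedBall x r)
  have i2 : IntegrableOn (fun z => ∑ j, ‖cdb j (fun y => (φ y : ℂ)) z‖ ^ 2) (closedBall x r) :=
    (hc2.mono hx).integrableOn_compact (isCompact_closedBall x r)
  calc ∫ z in ball x r, ‖fderiv ℝ φ z‖ ^ 2 ≤ ∫ z in closedBall x r, ‖fderiv ℝ φ z‖ ^ 2 :=
        sub_le ball_subset_closedBall (fun z => by positivity) i1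
    _ ≤ ∫ z in closedBall x r, 2 * n * ∑ j, ‖cdb j (fun y => (φ y : ℂ)) z‖ ^ 2 := by
        refine setIntegral_mono_on i1 (i2.const_mul (2 * (n : ℝ))) measurableSet_closedBall
          fun z hz => ?_
        exact fderiv_le ((hφ.1.differentiableOn (by simp)).differentiableAt
          (hT.mem_nhds (hx hz)))
    _ = 2 * n * ∫ z in closedBall x r, ∑ j, ‖cdb j (fun y => (φ y : ℂ)) z‖ ^ 2 :=
        integral_const_mul _ _
    _ ≤ 2 * n * (B * (dipE T κ (fun x => (H x).det.re) H (fun x => (φ x : ℂ))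
          fun x => (φ x : ℂ)).re) := mul_le_mul_of_nonneg_left hB2 (by positivity)
    _ = 2 * n * B * (dipE T κ (fun x => (H x).det.re) H (fun x => (φ x : ℂ))
          fun x => (φ x : ℂ)).re := by ring

/-- The finite family of balls. -/
lemma balls {n : ℕ} {T C : Set (Cn n)} (hT : IsOpen T) (hC : IsCompact C) (hCT : C ⊆ T) :
    ∃ (t : Finset (Cn n)) (r : Cn n → ℝ), (∀ x ∈ t, x ∈ C ∧ 0 < r x ∧ closedBall x (r x) ⊆ T) ∧
      C ⊆ ⋃ x ∈ t, ball x (r x) := by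
  have h1 : ∀ x ∈ C, ∃ r : ℝ, 0 < r ∧ closedBall x r ⊆ T := fun x hx =>
    Metric.nhds_basis_closedBall.mem_iff.1 (hT.mem_nhds (hCT hx))
  choose! r hr using h1
  obtain ⟨t, ht2⟩ := hC.elim_nhds_subcover' (fun x _ => ball x (r x))
    (fun x hx => ball_mem_nhds x (hr x hx).1)
  classical
  refine ⟨t.image Subtype.val, r, ?_, ?_⟩
  · intro x hx
    obtain ⟨y, hy, rfl⟩ := Finset.mem_image.1 hx
    exact ⟨y.2, hr y y.2⟩
  · intro x hx
    obtain ⟨y, hy, hy2⟩ := mem_iUnion₂.1 (ht2 hx)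
    exact mem_iUnion₂.2 ⟨y, Finset.mem_image_of_mem _ hy, hy2⟩

lemma supp_int {n : ℕ} {T C : Set (Cn n)} (hT : IsOpen T) (hC : IsCompact C) (hCT : C ⊆ T)
    {g : Cn n → ℝ} (hg : ContinuousOn g T) (h0 : ∀ x ∉ C, g x = 0) : IntegrableOn g T :=
  ((hg.mono hCT).integrableOn_compact hC).of_forall_sdiff_eq_zero hT.measurableSet
    fun x hx => h0 x hx.2

/-- The mean of the function does not matter. -/
lemma var_le {n : ℕ} {T C : Set (Cn n)} (hT : IsOpen T) (hC : IsCompact C) (hCT : C ⊆ T)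
    {w : Cn n → ℝ} (hw : ContinuousOn w T) (hw0 : ∀ x ∉ C, w x = 0) (hwn : ∀ x ∈ T, 0 ≤ w x) :
    ∃ A : ℝ, 0 ≤ A ∧ ∀ φ : Cn n → ℝ, ContinuousOn φ T → ∫ x in T, w x * φ x = 0 → ∀ m : ℝ,
      ∫ x in T, w x * φ x ^ 2 ≤ A * ∫ x in C, (φ x - m) ^ 2 := by
  obtain ⟨A, hA⟩ := hC.exists_bound_of_continuousOn (hw.mono hCT)
  refine ⟨max A 0, le_max_right _ _, fun φ hφ h0 m => ?_⟩
  have i0 : IntegrableOn w T := supp_int hT hC hCT hw hw0
  have i1 : IntegrableOn (fun x => w x * φ x) T :=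
    supp_int hT hC hCT (hw.mul hφ) fun x hx => by rw [hw0 x hx, zero_mul]
  have i2 : IntegrableOn (fun x => w x * φ x ^ 2) T :=
    supp_int hT hC hCT (hw.mul (hφ.pow 2)) fun x hx => by rw [hw0 x hx, zero_mul]
  have i3 : IntegrableOn (fun x => w x * (φ x - m) ^ 2) T :=
    supp_int hT hC hCT (hw.mul ((hφ.sub continuousOn_const).pow 2))
      fun x hx => by rw [hw0 x hx, zero_mul]
  have e1 : ∫ x in T, w x * (φ x - m) ^ 2 = (∫ x in T, w x * φ x ^ 2) + m ^ 2 * ∫ x in T, w x := by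
    have e2 : ∀ x, w x * (φ x - m) ^ 2 =
        (w x * φ x ^ 2 + (-(2 * m)) * (w x * φ x)) + m ^ 2 * w x := fun x => by ring
    simp_rw [e2]
    have j1 : Integrable (fun x => (-(2 * m)) * (w x * φ x)) (volume.restrict T) :=
      i1.const_mul _
    have j2 : Integrable (fun x => w x * φ x ^ 2 + (-(2 * m)) * (w x * φ x))
      (volume.restrict T) := i2.add j1
    rw [integral_add j2 (i0.const_mul (m ^ 2)), integral_add i2 j1, integral_const_mul,
      integral_const_mul, h0]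
    ring
  have e3 : 0 ≤ ∫ x in T, w x := setIntegral_nonneg hT.measurableSet hwn
  have e4 : ∫ x in T, w x * φ x ^ 2 ≤ ∫ x in T, w x * (φ x - m) ^ 2 := by
    rw [e1]
    have := mul_nonneg (sq_nonneg m) e3
    linarith
  have e5 : ∫ x in T, w x * (φ x - m) ^ 2 = ∫ x in C, w x * (φ x - m) ^ 2 :=
    setIntegral_eq_of_subset_of_forall_sdiff_eq_zero hT.measurableSet hCT
      fun x hx => by rw [hw0 x hx.2, zero_mul]
  rw [e5] at e4
  refine e4.trans ?_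
  rw [← integral_const_mul]
  have i4 : IntegrableOn (fun x => (φ x - m) ^ 2) C :=
    ((((hφ.sub continuousOn_const).pow 2).mono hCT)).integrableOn_compact hC
  refine setIntegral_mono_on (i3.mono_set hCT) (i4.const_mul _) hC.measurableSet fun x hx => ?_
  refine mul_le_mul_of_nonneg_right ?_ (sq_nonneg _)
  exact ((le_abs_self _).trans (hA x hx)).trans (le_max_left _ _)

lemma cen_le {n : ℕ} {T : Set (Cn n)} {φ : Cn n → ℝ} (hφ : ContinuousOn φ T) {x : Cn n} {r : ℝ}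
    (hB : closedBall x r ⊆ T) (m : ℝ) : ∫ z in ball x r, (φ z - m) ^ 2 ≤
      2 * VB φ x r + 2 * volume.real (ball x r) * (mB φ x r - m) ^ 2 := by
  have i1 := sqm_int hφ hB (mB φ x r)
  have i2 := sqm_int hφ hB m
  have e1 : 2 * volume.real (ball x r) * (mB φ x r - m) ^ 2 =
      ∫ _ in ball x r, 2 * (mB φ x r - m) ^ 2 := by
    rw [integral_const]
    simp only [MeasurableSet.univ, measureReal_restrict_apply, univ_inter, smul_eq_mul]
    ring
  unfold VB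
  rw [e1, ← integral_const_mul, ← integral_add (i1.const_mul 2) (integrable_const _)]
  refine setIntegral_mono_on i2 ((i1.const_mul 2).add (integrable_const _)) measurableSet_ball
    fun z _ => ?_
  nlinarith [sq_nonneg ((φ z - mB φ x r) - (mB φ x r - m))]

theorem poin (hDETI : S_DETI.{u}) (hL2C : S_L2C.{u}) (hPOIL : S_POIL) : S_POIN.{u} := by
  intro n T G _ R H hK κ hκ
  have h := hK.et
  have hT := h.isOpen
  obtain ⟨C₀, hC₀T, hC₀, hcoc⟩ := h.coc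
  have hκs : ContDiff ℝ ∞ κ := hκ.test.1
  have hκc : IsCompact (tsupport κ) := hκ.test.2.1
  have hκT : tsupport κ ⊆ T := hκ.test.2.2
  have hC : IsCompact (tsupport κ ∪ C₀) := hκc.union hC₀
  have hCT : tsupport κ ∪ C₀ ⊆ T := union_subset hκT hC₀T
  obtain ⟨t, r, htr, hcov⟩ := balls hT hC hCT
  have hpos : ∀ i : t, 0 < r i := fun i => (htr i i.2).2.1
  have hcl : ∀ i : t, closedBall (i : Cn n) (r i) ⊆ T := fun i => (htr i i.2).2.2
  -- nonempty
  obtain ⟨x₀, hx₀⟩ := h.nonempty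
  obtain ⟨γ₀, y₀, hy₀, _⟩ := hcoc x₀ hx₀
  obtain ⟨i₀', hi₀', hi₀2⟩ := mem_iUnion₂.1 (hcov (Or.inr hy₀))
  let i₀ : t := ⟨i₀', hi₀'⟩
  -- the energy
  set E : (Cn n → ℝ) → ℝ := fun φ => ∑ i : t, ∫ z in ball (i : Cn n) (r i), ‖fderiv ℝ φ z‖ ^ 2
    with hE
  have hE0 : ∀ (φ : Cn n → ℝ) (i : t), 0 ≤ ∫ z in ball (i : Cn n) (r i), ‖fderiv ℝ φ z‖ ^ 2 := fun φ i =>
    integral_nonneg fun z => by positivity
  have hEi : ∀ (φ : Cn n → ℝ) (i : t), ∫ z in ball (i : Cn n) (r i), ‖fderiv ℝ φ z‖ ^ 2 ≤ E φ := fun φ i =>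
    Finset.single_le_sum (f := fun i : t => ∫ z in ball (i : Cn n) (r i), ‖fderiv ℝ φ z‖ ^ 2)
      (fun j _ => hE0 φ j) (Finset.mem_univ i)
  have hEn : ∀ φ, 0 ≤ E φ := fun φ => Finset.sum_nonneg fun j _ => hE0 φ j
  have hVB : ∀ i : t, ∃ K : ℝ, 0 ≤ K ∧ ∀ φ, InvF T R φ → VB φ i (r i) ≤ K * E φ := by
    intro i
    obtain ⟨K, hK0, hK1⟩ := VB_le hPOIL (i : Cn n) (hpos i)
    exact ⟨K, hK0, fun φ hφ => (hK1 φ T hT (hcl i) hφ.1).trans
      (mul_le_mul_of_nonneg_left (hEi φ i) hK0)⟩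
  choose KV hKV0 hKV using hVB
  -- all the means are comparable
  have hall : ∀ i j : t, ∃ K : ℝ, 0 ≤ K ∧ ∀ φ, InvF T R φ →
      (mB φ i (r i) - mB φ j (r j)) ^ 2 ≤ K * E φ := by
    refine conn_all h (Bs := fun i : t => ball (i : Cn n) (r i)) (fun _ => isOpen_ball)
      (fun i => ⟨(i : Cn n), mem_ball_self (hpos i)⟩) (fun i => ball_subset_closedBall.trans (hcl i))
      (fun i j => ∃ K : ℝ, 0 ≤ K ∧ ∀ φ, InvF T R φ →
        (mB φ i (r i) - mB φ j (r j)) ^ 2 ≤ K * E φ) ?_ ?_ ?_ ?_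
    · rintro i j ⟨K, hK0, hK1⟩
      refine ⟨K, hK0, fun φ hφ => ?_⟩
      have := hK1 φ hφ
      have e : (mB φ j (r j) - mB φ i (r i)) ^ 2 = (mB φ i (r i) - mB φ j (r j)) ^ 2 := by ring
      rw [e]
      exact this
    · rintro i j k ⟨K, hK0, hK1⟩ ⟨K', hK0', hK1'⟩
      refine ⟨2 * K + 2 * K', by positivity, fun φ hφ => ?_⟩
      have a1 := hK1 φ hφ
      have a2 := hK1' φ hφ
      have a3 : (mB φ i (r i) - mB φ k (r k)) ^ 2 ≤ 2 * (mB φ i (r i) - mB φ j (r j)) ^ 2 +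
          2 * (mB φ j (r j) - mB φ k (r k)) ^ 2 := by
        nlinarith [sq_nonneg ((mB φ i (r i) - mB φ j (r j)) - (mB φ j (r j) - mB φ k (r k)))]
      rw [add_mul]
      linarith
    · rintro i j γ x y hR hx hy
      obtain ⟨τ, U, W, hU, hW, hxU, hyW, hUT, hWT, hτ, hinj, hmaps, hdet, hiff⟩ :=
        h.loc γ x y hR
      have e : y = τ x := (hiff x hxU y hyW).1 hR
      have hn1 : (U ∩ τ ⁻¹' (ball (j : Cn n) (r j))) ∩ ball (i : Cn n) (r i) ∈ 𝓝 x :=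
        ((hτ.continuousOn.isOpen_inter_preimage hU isOpen_ball).inter isOpen_ball).mem_nhds
          ⟨⟨hxU, by rw [mem_preimage, ← e]; exact hy⟩, hx⟩
      obtain ⟨ρ, hρ, hρ2⟩ := Metric.nhds_basis_closedBall.mem_iff.1 hn1
      obtain ⟨K, hK0, hK1⟩ := arrow_le (T := T) hU hUT hτ hinj hdet (x₁ := i) (x₂ := j) (z₀ := x)
        (r₁ := r i) (r₂ := r j) hρ (hcl i) (hcl j) (fun z hz => (hρ2 hz).1.1)
        (fun z hz => (hρ2 (ball_subset_closedBall hz)).2)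
        (fun z hz => (hρ2 (ball_subset_closedBall hz)).1.2)
      refine ⟨K * (KV i + KV j), mul_nonneg hK0 (add_nonneg (hKV0 i) (hKV0 j)), fun φ hφ => ?_⟩
      have a1 := hK1 φ hφ.1.continuousOn fun z hz =>
        hφ.2 γ z (τ z) ((hiff z hz (τ z) (hmaps hz)).2 rfl)
      have a2 := hKV i φ hφ
      have a3 := hKV j φ hφ
      have a4 : VB φ i (r i) + VB φ j (r j) ≤ (KV i + KV j) * E φ := by
        rw [add_mul]
        linarith
      calc (mB φ i (r i) - mB φ j (r j)) ^ 2 ≤ K * (VB φ i (r i) + VB φ j (r j)) := a1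
        _ ≤ K * ((KV i + KV j) * E φ) := mul_le_mul_of_nonneg_left a4 hK0
        _ = K * (KV i + KV j) * E φ := by ring
    · intro x hx
      obtain ⟨γ, y, hy, hR⟩ := hcoc x hx
      obtain ⟨i, hi, hi2⟩ := mem_iUnion₂.1 (hcov (Or.inr hy))
      exact ⟨⟨i, hi⟩, γ, y, hR, hi2⟩
  have hall0 := fun i => hall i i₀
  choose KM hKM0 hKM using hall0
  -- the energy is controlled
  have hEL : ∀ i : t, ∃ L : ℝ, ∀ φ, InvF T R φ →
      ∫ z in ball (i : Cn n) (r i), ‖fderiv ℝ φ z‖ ^ 2 ≤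
      L * (dipE T κ (fun x => (H x).det.re) H (fun x => (φ x : ℂ)) fun x => (φ x : ℂ)).re :=
    fun i => energy_le hDETI hL2C hK hκ i (r i) (hcl i)
  choose L hL using hEL
  obtain ⟨d1, d2, -⟩ := hDETI T R H hK
  obtain ⟨A, hA0, hA⟩ := var_le (w := fun x => κ x * (H x).det.re) hT hκc hκT
    (hκs.continuous.continuousOn.mul d2.continuousOn)
    (fun x hx => by rw [image_eq_zero_of_notMem_tsupport hx, zero_mul])
    (fun x hx => mul_nonneg (hκ.nonneg x) (d1 x hx).2.1.le)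
  set K₁ : ℝ := ∑ i : t, (2 * KV i + 2 * volume.real (ball (i : Cn n) (r i)) * KM i) with hK₁
  have hK₁0 : 0 ≤ K₁ := Finset.sum_nonneg fun i _ => by
    have := hKV0 i
    have := hKM0 i
    positivity
  refine ⟨A * K₁ * ∑ i, L i, fun φ hφ h0 => ?_⟩
  have hφc := hφ.1.continuousOn
  have s1 := hA φ hφc h0 (mB φ i₀ (r i₀))
  have s2 : ∫ x in tsupport κ, (φ x - mB φ i₀ (r i₀)) ^ 2 ≤
      ∑ i : t, ∫ x in ball (i : Cn n) (r i), (φ x - mB φ i₀ (r i₀)) ^ 2 := by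
    refine cover_le (fun i => measurableSet_ball) hκc.measurableSet ?_ (fun x => sq_nonneg _)
      (fun i => sqm_int hφc (hcl i) _) ?_
    · intro x hx
      obtain ⟨i, hi, hi2⟩ := mem_iUnion₂.1 (hcov (Or.inl hx))
      exact mem_iUnion.2 ⟨⟨i, hi⟩, hi2⟩
    · exact ((((hφc.sub continuousOn_const).pow 2).mono hκT)).integrableOn_compact hκc
  have s3 : ∑ i : t, ∫ x in ball (i : Cn n) (r i), (φ x - mB φ i₀ (r i₀)) ^ 2 ≤ K₁ * E φ := by
    rw [hK₁, Finset.sum_mul]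
    refine Finset.sum_le_sum fun i _ => ?_
    have c1 := cen_le hφc (hcl i) (mB φ i₀ (r i₀))
    have c2 := hKV i φ hφ
    have c3 := hKM i φ hφ
    have c4 : 2 * volume.real (ball (i : Cn n) (r i)) * (mB φ i (r i) - mB φ i₀ (r i₀)) ^ 2 ≤
        2 * volume.real (ball (i : Cn n) (r i)) * (KM i * E φ) :=
      mul_le_mul_of_nonneg_left c3 (by positivity)
    rw [add_mul]
    linarith
  have s4 : E φ ≤ (∑ i, L i) *
      (dipE T κ (fun x => (H x).det.re) H (fun x => (φ x : ℂ)) fun x => (φ x : ℂ)).re := by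
    rw [Finset.sum_mul]
    exact Finset.sum_le_sum fun i _ => hL i φ hφ
  calc ∫ x in T, κ x * (H x).det.re * φ x ^ 2 ≤
      A * ∫ x in tsupport κ, (φ x - mB φ i₀ (r i₀)) ^ 2 := s1
    _ ≤ A * (K₁ * E φ) := mul_le_mul_of_nonneg_left (s2.trans s3) hA0
    _ ≤ A * (K₁ * ((∑ i, L i) * (dipE T κ (fun x => (H x).det.re) H (fun x => (φ x : ℂ))
          fun x => (φ x : ℂ)).re)) :=
        mul_le_mul_of_nonneg_left (mul_le_mul_of_nonneg_left s4 hK₁0) hA0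
    _ = A * K₁ * (∑ i, L i) * (dipE T κ (fun x => (H x).det.re) H (fun x => (φ x : ℂ))
          fun x => (φ x : ℂ)).re := by ring

end Pool.Agent.Helper63.SP
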