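import Pool.Agent.Helper10.SP.GoalsI
import Pool.Agent.Helper19.Lin.IDT
import Pool.Agent.Helper95.Lin.Basics

set_option autoImplicit false

/-! # SP-ZZ: the generators that kill the period map form a commutative family -/

open Complex Metric Set Filter Topology MeasureTheory
open scoped ContDiff ComplexConjugate ComplexOrder Manifold

namespace Pool.Agent.Helper63.SP

open Pool.Agent.Helper95.Lin Pool.Agent.Helper16.Abund Pool.Agent.Helper92.Orb
open Pool.Agent.Helper10.SP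

universe u v

/-- The identity theorem for functions. -/
lemma idt1 {n : ℕ} {U : Set (Cn n)} (hU : IsOpen U) (hUc : IsPreconnected U) {F : Cn n → ℂ}
    (hF : DifferentiableOn ℂ F U) {z₀ : Cn n} (hz₀ : z₀ ∈ U) (h0 : ∀ᶠ z in 𝓝 z₀, F z = 0)
    {z : Cn n} (hz : z ∈ U) : F z = 0 := by
  have h1 := Pool.Agent.Helper19.Lin.idt U hU hUc (fun z => fun _ : Fin 1 => F z)
    (differentiableOn_pi.2 fun _ => hF) z₀ hz₀ (h0.mono fun z hz => by
      ext
      exact hz) z hz
  exact congrFun h1 0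

/-- Holomorphic maps with invertible differential are open. -/
lemma open_ev {n : ℕ} {g : Cn n → Cn n} {U : Set (Cn n)} (hU : IsOpen U)
    (hg : DifferentiableOn ℂ g U) {z : Cn n} (hz : z ∈ U) (hd : (fderiv ℂ g z).det ≠ 0)
    {p : Cn n → Prop} (h : ∀ᶠ z' in 𝓝 z, p (g z')) : ∀ᶠ y in 𝓝 (g z), p y := by
  have hs : HasStrictFDerivAt g (fderiv ℂ g z) z :=
    ((holo_contDiffOn hU hg).contDiffAt (hU.mem_nhds hz)).hasStrictFDerivAt (by simp)
  have e : map g (𝓝 z) = 𝓝 (g z) := by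
    refine HasStrictFDerivAt.map_nhds_eq_of_equiv
      (f' := (fderiv ℂ g z).toContinuousLinearEquivOfDetNeZero hd) ?_
    rw [ContinuousLinearMap.coe_toContinuousLinearEquivOfDetNeZero]
    exact hs
  rw [← e]
  exact h

/-- The linear combination of the fields. -/
noncomputable def lc' {b m : ℕ} (V : Fin m → Cn b → Cn b) (x : Fin m → ℝ) (z : Cn b) : Cn b :=
  ∑ k, (x k : ℂ) • V k z

lemma lc'_add {b m : ℕ} (V : Fin m → Cn b → Cn b) (x y : Fin m → ℝ) (z : Cn b) :
    lc' V (x + y) z = lc' V x z + lc' V y z := by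
  unfold lc'
  rw [← Finset.sum_add_distrib]
  refine Finset.sum_congr rfl fun k _ => ?_
  rw [Pi.add_apply, ofReal_add, add_smul]

lemma lc'_smul {b m : ℕ} (V : Fin m → Cn b → Cn b) (r : ℝ) (x : Fin m → ℝ) (z : Cn b) :
    lc' V (r • x) z = (r : ℂ) • lc' V x z := by
  unfold lc'
  rw [Finset.smul_sum]
  refine Finset.sum_congr rfl fun k _ => ?_
  rw [Pi.smul_apply, smul_eq_mul, ofReal_mul, mul_smul]

lemma lc'_zero {b m : ℕ} (V : Fin m → Cn b → Cn b) (z : Cn b) : lc' V 0 z = 0 := by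
  unfold lc'
  simp

/-- `lc'` as a linear map in the coefficients. -/
noncomputable def lcL {b m : ℕ} (V : Fin m → Cn b → Cn b) (z : Cn b) :
    (Fin m → ℝ) →ₗ[ℝ] Cn b where
  toFun x := lc' V x z
  map_add' x y := lc'_add V x y z
  map_smul' r x := by
    rw [lc'_smul]
    rfl

lemma lc'_sum {b m m' : ℕ} (V : Fin m → Cn b → Cn b) (y : Fin m' → ℝ) (X : Fin m' → Fin m → ℝ)
    (z : Cn b) : lc' V (∑ k, y k • X k) z = ∑ k, (y k : ℂ) • lc' V (X k) z := by
  have : lcL V z (∑ k, y k • X k) = ∑ k, y k • lcL V z (X k) := by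
    rw [map_sum]
    simp only [map_smul]
  exact this

/-- The combinations which kill the period map. -/
noncomputable def KK {b N m : ℕ} (c : Fin N → Cn b) (lam : Fin 2 → Cn b → ℂ)
    (V : Fin m → Cn b → Cn b) (i : Fin N) : Submodule ℝ (Fin m → ℝ) where
  carrier := {x | ∀ z ∈ ball (c i) 3, fderiv ℂ (tau lam) z (lc' V x z) = 0}
  add_mem' {x y} hx hy z hz := by
    rw [lc'_add, map_add, hx z hz, hy z hz, add_zero]
  zero_mem' z hz := by rw [lc'_zero, map_zero]
  smul_mem' r x hx z hz := by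
    rw [lc'_smul, map_smul, hx z hz, smul_zero]

lemma mem_KK {b N m : ℕ} {c : Fin N → Cn b} {lam : Fin 2 → Cn b → ℂ}
    {V : Fin m → Cn b → Cn b} {i : Fin N} {x : Fin m → ℝ} : x ∈ KK c lam V i ↔
      ∀ z ∈ ball (c i) 3, fderiv ℂ (tau lam) z (lc' V x z) = 0 := Iff.rfl

lemma ball_Bd {b N : ℕ} (c : Fin N → Cn b) (i : Fin N) (r : ℝ) : ball (c i) r ⊆ Bd c r :=
  subset_iUnion (fun i => ball (c i) r) i

lemma mem_Bd {b N : ℕ} {c : Fin N → Cn b} {r : ℝ} {z : Cn b} : z ∈ Bd c r ↔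
    ∃ i, z ∈ ball (c i) r := mem_iUnion

/-- Images of the combinations under the maps of the pseudogroup. -/
lemma push {b m : ℕ} {V : Fin m → Cn b → Cn b} {g : Cn b → Cn b} {z : Cn b}
    {A : Matrix (Fin m) (Fin m) ℝ}
    (h : ∀ k, fderiv ℂ g z (V k z) = ∑ l, ((A l k : ℝ) : ℂ) • V l (g z)) (x : Fin m → ℝ) :
    fderiv ℂ g z (lc' V x z) = lc' V (A.mulVec x) (g z) := by
  unfold lc'
  rw [map_sum]
  have e1 : ∀ l, ((A.mulVec x l : ℝ) : ℂ) • V l (g z) =
      ∑ k, (x k : ℂ) • ((A l k : ℝ) : ℂ) • V l (g z) := by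
    intro l
    rw [Matrix.mulVec, dotProduct, ofReal_sum, Finset.sum_smul]
    refine Finset.sum_congr rfl fun k _ => ?_
    rw [ofReal_mul, mul_comm, mul_smul]
  simp_rw [e1]
  rw [Finset.sum_comm]
  refine Finset.sum_congr rfl fun k _ => ?_
  rw [map_smul, h k, Finset.smul_sum]

lemma F_diff {b N m : ℕ} {c : Fin N → Cn b} {P : Set (Cn b) → Tri b → Prop}
    (hTAUB : S_TAUB) {lam : Fin 2 → Cn b → ℂ} (hper : Per c P lam)
    {V : Fin m → Cn b → Cn b} (hV : ∀ k, DifferentiableOn ℂ (V k) (Bd c 3)) (x : Fin m → ℝ) :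
    DifferentiableOn ℂ (fun z => fderiv ℂ (tau lam) z (lc' V x z)) (Bd c 3) := by
  have hopen : IsOpen (Bd c 3) := isOpen_iUnion fun i => isOpen_ball
  have h1 := (hTAUB c P lam hper).2.1
  have h2 : DifferentiableOn ℂ (fderiv ℂ (tau lam)) (Bd c 3) := holo_fderiv hopen h1
  have h3 : DifferentiableOn ℂ (fun z => lc' V x z) (Bd c 3) := by
    unfold lc'
    exact DifferentiableOn.fun_sum fun k _ => (hV k).const_smul (x k : ℂ)
  exact h2.clm_apply h3

/-- The matrix of an arrow maps `K i` onto `K j`. -/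
lemma arrK (hTAUB : S_TAUB) {b N m : ℕ} {c : Fin N → Cn b} {R : ℝ}
    {P : Set (Cn b) → Tri b → Prop} {Φ : Cn b → ℝ} {C : ℝ} (hA : AFol c R P Φ C)
    {lam : Fin 2 → Cn b → ℂ} (hper : Per c P lam) {V : Fin m → Cn b → Cn b}
    (hV : CFam c P m V) {U : Set (Cn b)} {t : Tri b} (hP : P U t) {z : Cn b} (hz : z ∈ U)
    {i j : Fin N} (hzi : z ∈ ball (c i) 2) (hgj : t.g z ∈ ball (c j) 2)
    {A : Matrix (Fin m) (Fin m) ℝ}
    (hAt : ∀ᶠ z' in 𝓝 z, ∀ k, fderiv ℂ t.g z' (V k z') = ∑ l, ((A l k : ℝ) : ℂ) • V l (t.g z'))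
    (x : Fin m → ℝ) : x ∈ KK c lam V i ↔ A.mulVec x ∈ KK c lam V j := by
  obtain ⟨hUo, hUR, hgd, had, hβd, hga⟩ := hA.holo U t hP
  have hz2 : z ∈ Bd c 2 := ball_Bd c i 2 hzi
  have hg2 : t.g z ∈ Bd c 2 := ball_Bd c j 2 hgj
  obtain ⟨Q, U', hQ, hU', hzU', hU'U, hrel⟩ := hper.trans U t hP z hz hz2 hg2
  have hT3 := (hTAUB c P lam hper).2.2
  have h23 : ∀ k : Fin N, ball (c k) 2 ⊆ ball (c k) 3 := fun k => ball_subset_ball (by norm_num)
  -- the relation between the two functions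
  have hcont : ContinuousAt t.g z := (hgd.differentiableAt (hUo.mem_nhds hz)).continuousAt
  have key : ∀ᶠ z' in 𝓝 z, ∃ q : ℂ, q ≠ 0 ∧ fderiv ℂ (tau lam) z' (lc' V x z') =
      q * fderiv ℂ (tau lam) (t.g z') (lc' V (A.mulVec x) (t.g z')) := by
    filter_upwards [hU'.mem_nhds hzU', isOpen_ball.mem_nhds hzi,
      hcont.preimage_mem_nhds (isOpen_ball.mem_nhds hgj), hAt] with z' h1 h2 h3 h4
    obtain ⟨a1, a2, a3, a4, a5, a6⟩ := hT3 t Q z' (ball_Bd c i 3 (h23 i h2))
      (ball_Bd c j 3 (h23 j h3)) (hgd.differentiableAt (hUo.mem_nhds (hU'U h1)))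
      (by filter_upwards [hU'.mem_nhds h1] with z'' h5 using hrel z'' h5)
      ((hga z' (hU'U h1)).2)
    refine ⟨(Q.det : ℂ) / ((Q 0 0 : ℂ) + Q 1 0 * tau lam (t.g z')) ^ 2, ?_, ?_⟩
    · refine div_ne_zero ?_ (pow_ne_zero 2 a2)
      exact_mod_cast hQ.ne'
    · rw [a5, push h4 x]
  constructor
  · intro hx
    refine mem_KK.2 fun y hy => ?_
    have h1 : ∀ᶠ z' in 𝓝 z,
        fderiv ℂ (tau lam) (t.g z') (lc' V (A.mulVec x) (t.g z')) = 0 := by
      filter_upwards [key, isOpen_ball.mem_nhds hzi] with z' ⟨q, hq, hq2⟩ h2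
      rw [mem_KK.1 hx z' (h23 i h2)] at hq2
      rcases mul_eq_zero.1 hq2.symm with h | h
      · exact absurd h hq
      · exact h
    have h2 := open_ev (p := fun y => fderiv ℂ (tau lam) y (lc' V (A.mulVec x) y) = 0) hUo hgd hz
      (hA.pot U t hP z hz).1 h1
    exact idt1 isOpen_ball (convex_ball _ _).isPreconnected
      ((F_diff hTAUB hper hV.holo (A.mulVec x)).mono (ball_Bd c j 3)) (h23 j hgj) h2 hy
  · intro hx
    refine mem_KK.2 fun y hy => ?_
    have h1 : ∀ᶠ z' in 𝓝 z, fderiv ℂ (tau lam) z' (lc' V x z') = 0 := by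
      filter_upwards [key, hcont.preimage_mem_nhds (isOpen_ball.mem_nhds hgj)] with z'
        ⟨q, hq, hq2⟩ h2
      rw [mem_KK.1 hx (t.g z') (h23 j h2), mul_zero] at hq2
      exact hq2
    exact idt1 isOpen_ball (convex_ball _ _).isPreconnected
      ((F_diff hTAUB hper hV.holo x).mono (ball_Bd c i 3)) (h23 i hzi) h1 hy

/-- The balls are disjoint. -/
lemma ball_disj {b N : ℕ} {c : Fin N → Cn b} {R : ℝ}
    {P : Set (Cn b) → Tri b → Prop} {Φ : Cn b → ℝ} {C : ℝ} (hA : AFol c R P Φ C) {r : ℝ}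
    (hr : r ≤ 3) {z : Cn b} {i j : Fin N} (hi : z ∈ ball (c i) r) (hj : z ∈ ball (c j) r) :
    i = j := by
  by_contra hij
  have h1 := hA.sep i j hij
  have h2 := hA.Rge
  have h3 := hA.Cge
  rw [mem_ball] at hi hj
  have h4 : ‖c i - c j‖ ≤ dist z (c i) + dist z (c j) := by
    rw [← dist_eq_norm, dist_comm z (c i)]
    exact dist_triangle _ _ _
  linarith

/-- All the `K i` have the same dimension. -/
lemma dim_eq (hTAUB : S_TAUB) {b N m : ℕ} {c : Fin N → Cn b} {R : ℝ}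
    {P : Set (Cn b) → Tri b → Prop} {Φ : Cn b → ℝ} {C : ℝ} (hA : AFol c R P Φ C)
    {lam : Fin 2 → Cn b → ℂ} (hper : Per c P lam) {V : Fin m → Cn b → Cn b}
    (hV : CFam c P m V) (i₀ i : Fin N) :
    Module.finrank ℝ (KK c lam V i) = Module.finrank ℝ (KK c lam V i₀) := by
  set d : Fin N → ℕ := fun i => Module.finrank ℝ (KK c lam V i) with hd
  -- arrows preserve the dimension
  have harr : ∀ U t, P U t → ∀ z ∈ U, ∀ i j, z ∈ ball (c i) 2 → t.g z ∈ ball (c j) 2 →
      d i = d j := by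
    intro U t hP z hz i j hzi hgj
    obtain ⟨A, U', hAd, hU', hzU', hU'U, hAt⟩ :=
      hV.trans U t hP z hz (ball_Bd c i 2 hzi) (ball_Bd c j 2 hgj)
    have h1 := arrK hTAUB hA hper hV hP hz hzi hgj (A := A)
      (by filter_upwards [hU'.mem_nhds hzU'] with z' h using hAt z' h)
    have hAu : IsUnit A.det := isUnit_iff_ne_zero.2 hAd
    let e : (Fin m → ℝ) ≃ₗ[ℝ] (Fin m → ℝ) := A.toLinearEquiv' (A.invertibleOfIsUnitDet hAu)
    have he : ∀ x, e x = A.mulVec x := fun x => rfl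
    have h2 : (KK c lam V i).map (e : (Fin m → ℝ) →ₗ[ℝ] (Fin m → ℝ)) = KK c lam V j := by
      ext y
      rw [Submodule.mem_map]
      constructor
      · rintro ⟨x, hx, rfl⟩
        exact (h1 x).1 hx
      · intro hy
        refine ⟨e.symm y, (h1 _).2 ?_, e.apply_symm_apply y⟩
        rw [← he, e.apply_symm_apply]
        exact hy
    have h3 := LinearEquiv.finrank_map_eq e (KK c lam V i)
    rw [h2] at h3
    exact h3.symm
  have hopen : ∀ p : Fin N → Prop, IsOpen {z | ∃ i, z ∈ ball (c i) 2 ∧ p i} := by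
    intro p
    have : {z | ∃ i, z ∈ ball (c i) 2 ∧ p i} = ⋃ i, ⋃ (_ : p i), ball (c i) 2 := by
      ext z
      simp only [mem_ofPred_eq, mem_iUnion, exists_prop]
      exact exists_congr fun i => and_comm
    rw [this]
    exact isOpen_iUnion fun i => isOpen_iUnion fun _ => isOpen_ball
  set S := {z | ∃ i, z ∈ ball (c i) 2 ∧ d i = d i₀} with hS
  have hc : ∀ i, c i ∈ ball (c i) 2 := fun i => mem_ball_self (by norm_num)
  have hSB : S ⊆ Bd c 2 := by
    rintro z ⟨i, hi, _⟩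
    exact ball_Bd c i 2 hi
  have hSc : Bd c 2 \ S = {z | ∃ i, z ∈ ball (c i) 2 ∧ ¬ d i = d i₀} := by
    ext z
    constructor
    · rintro ⟨hz, hzS⟩
      obtain ⟨i, hi⟩ := mem_Bd.1 hz
      exact ⟨i, hi, fun h => hzS ⟨i, hi, h⟩⟩
    · rintro ⟨i, hi, hdi⟩
      refine ⟨ball_Bd c i 2 hi, ?_⟩
      rintro ⟨j, hj, hdj⟩
      have := ball_disj hA (by norm_num) hi hj
      subst this
      exact hdi hdj
  have hinv : ∀ U t, P U t → ∀ z ∈ U, z ∈ Bd c 2 → t.g z ∈ Bd c 2 → (z ∈ S ↔ t.g z ∈ S) := by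
    intro U t hP z hz hz2 hg2
    obtain ⟨i, hi⟩ := mem_Bd.1 hz2
    obtain ⟨j, hj⟩ := mem_Bd.1 hg2
    have h1 := harr U t hP z hz i j hi hj
    constructor
    · rintro ⟨i', hi', hd'⟩
      have := ball_disj hA (by norm_num) hi hi'
      subst this
      exact ⟨j, hj, h1.symm.trans hd'⟩
    · rintro ⟨j', hj', hd'⟩
      have := ball_disj hA (by norm_num) hj hj'
      subst this
      exact ⟨i, hi, h1.trans hd'⟩
  rcases hA.conn S hSB (hopen _) (by rw [hSc]; exact hopen _) hinv with h | h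
  · exfalso
    have : c i₀ ∈ S := ⟨i₀, hc i₀, rfl⟩
    rw [h] at this
    exact this
  · have : c i ∈ S := by
      rw [h]
      exact ball_Bd c i 2 (hc i)
    obtain ⟨j, hj, hdj⟩ := this
    have := ball_disj hA (by norm_num) (hc i) hj
    subst this
    exact hdj

lemma InfGen.congr {b N : ℕ} {c : Fin N → Cn b} {P : Set (Cn b) → Tri b → Prop} {i : Fin N}
    {V W : Cn b → Cn b} (h : InfGen c P i V) (hVW : ∀ z ∈ ball (c i) 3, W z = V z) :
    InfGen c P i W := by
  obtain ⟨h1, t, σ, h2, h3, h4, h5⟩ := h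
  refine ⟨h1.congr hVW, t, σ, h2, h3, h4, fun ε hε => ?_⟩
  filter_upwards [h5 ε hε] with n hn z hz
  rw [hVW z hz]
  exact hn z hz

lemma lc'_diff {b m : ℕ} {V : Fin m → Cn b → Cn b} {U : Set (Cn b)}
    (hV : ∀ k, DifferentiableOn ℂ (V k) U) (x : Fin m → ℝ) : DifferentiableOn ℂ (lc' V x) U := by
  unfold lc'
  exact DifferentiableOn.fun_sum fun k _ => (hV k).const_smul (x k : ℂ)

lemma lc'_fderiv {b m : ℕ} {V : Fin m → Cn b → Cn b} {z : Cn b}
    (hV : ∀ k, DifferentiableAt ℂ (V k) z) (x : Fin m → ℝ) (e : Cn b) :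
    fderiv ℂ (lc' V x) z e = ∑ k, (x k : ℂ) • fderiv ℂ (V k) z e := by
  have h1 : HasFDerivAt (lc' V x) (∑ k, (x k : ℂ) • fderiv ℂ (V k) z) z := by
    unfold lc'
    exact HasFDerivAt.fun_sum fun k _ => (hV k).hasFDerivAt.const_smul (x k : ℂ)
  rw [h1.fderiv, _root_.sum_apply]
  rfl

theorem zz (hTAUB : S_TAUB) : S_ZZ := by
  classical
  intro b N c R P Φ C hA lam hper m V hV
  have hN : 0 < N := hA.posN
  let i₀ : Fin N := ⟨0, hN⟩
  by_cases hm : Module.finrank ℝ (KK c lam V i₀) = 0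
  · right
    intro i x hx
    have h1 : Module.finrank ℝ (KK c lam V i) = 0 := (dim_eq hTAUB hA hper hV i₀ i).trans hm
    have h2 : KK c lam V i = ⊥ := Submodule.finrank_eq_zero.1 h1
    have h3 : x ∈ KK c lam V i := hx
    rw [h2] at h3
    exact (Submodule.mem_bot ℝ).1 h3
  left
  set m' := Module.finrank ℝ (KK c lam V i₀) with hm'
  let bas := fun i => Module.finBasisOfFinrankEq ℝ (KK c lam V i)
    (dim_eq hTAUB hA hper hV i₀ i)
  let X : Fin N → Fin m' → Fin m → ℝ := fun i k => (bas i k : Fin m → ℝ)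
  have hX : ∀ i k, X i k ∈ KK c lam V i := fun i k => (bas i k).2
  have hXi : ∀ i, ∀ y : Fin m' → ℝ, ∑ k, y k • X i k = 0 → y = 0 := by
    intro i y hy
    have h1 : ∑ k, y k • bas i k = 0 := by
      apply Subtype.ext
      rw [Submodule.coe_sum]
      exact hy
    have h2 := Fintype.linearIndependent_iff.1 (bas i).linearIndependent y h1
    exact funext h2
  have hXs : ∀ i, ∀ x ∈ KK c lam V i, ∃ y : Fin m' → ℝ, x = ∑ k, y k • X i k := by
    intro i x hx
    refine ⟨fun k => (bas i).repr ⟨x, hx⟩ k, ?_⟩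
    have h1 := (bas i).sum_repr ⟨x, hx⟩
    have h2 := congrArg (Subtype.val) h1
    rw [Submodule.coe_sum] at h2
    exact h2.symm
  let V' : Fin m' → Cn b → Cn b := fun k z =>
    ∑ i, if z ∈ ball (c i) 3 then lc' V (X i k) z else 0
  have hV' : ∀ k i, ∀ z ∈ ball (c i) 3, V' k z = lc' V (X i k) z := by
    intro k i z hz
    have h1 : V' k z = if z ∈ ball (c i) 3 then lc' V (X i k) z else 0 := by
      refine Finset.sum_eq_single i (fun j _ hj => ?_) fun h => absurd (Finset.mem_univ i) h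
      rw [if_neg]
      intro hzj
      exact hj (ball_disj hA le_rfl hzj hz)
    rw [h1, if_pos hz]
  have hVev : ∀ k i, ∀ z ∈ ball (c i) 3, V' k =ᶠ[𝓝 z] lc' V (X i k) := by
    intro k i z hz
    filter_upwards [isOpen_ball.mem_nhds hz] with z' hz' using hV' k i z' hz'
  have hlc : ∀ (i : Fin N) (y : Fin m' → ℝ), ∀ z ∈ ball (c i) 3,
      ∑ k, (y k : ℂ) • V' k z = lc' V (∑ k, y k • X i k) z := by
    intro i y z hz
    rw [lc'_sum]
    refine Finset.sum_congr rfl fun k _ => ?_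
    rw [hV' k i z hz]
  have hopen : IsOpen (Bd c 3) := isOpen_iUnion fun i => isOpen_ball
  have h23 : ∀ k : Fin N, ball (c k) 2 ⊆ ball (c k) 3 := fun k => ball_subset_ball (by norm_num)
  refine ⟨m', V', ?_, ?_⟩
  · refine ⟨Nat.pos_of_ne_zero hm, ?_, ?_, ?_, ?_, ?_, ?_⟩
    · intro k z hz
      obtain ⟨i, hi⟩ := mem_Bd.1 hz
      have h1 : DifferentiableAt ℂ (lc' V (X i k)) z :=
        (lc'_diff hV.holo (X i k)).differentiableAt (hopen.mem_nhds hz)
      exact ((hVev k i z hi).differentiableAt_iff.2 h1).differentiableWithinAt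
    · obtain ⟨B, hB⟩ := hV.bdd
      refine ⟨∑ i, ∑ k, ∑ l, |X i k l| * B, ?_⟩
      intro k z hz
      obtain ⟨i, hi⟩ := mem_Bd.1 hz
      by_cases hm0 : m = 0
      · subst hm0
        rw [hV' k i z hi]
        unfold lc'
        simp
      have hB0 : 0 ≤ B := (norm_nonneg _).trans (hB ⟨0, Nat.pos_of_ne_zero hm0⟩ z hz)
      rw [hV' k i z hi]
      calc ‖lc' V (X i k) z‖ ≤ ∑ l, ‖(X i k l : ℂ) • V l z‖ := norm_sum_le _ _
        _ ≤ ∑ l, |X i k l| * B := by
            refine Finset.sum_le_sum fun l _ => ?_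
            rw [norm_smul, norm_real, Real.norm_eq_abs]
            exact mul_le_mul_of_nonneg_left (hB l z hz) (abs_nonneg _)
        _ ≤ ∑ k, ∑ l, |X i k l| * B :=
            Finset.single_le_sum (f := fun k => ∑ l, |X i k l| * B)
              (fun k _ => Finset.sum_nonneg fun l _ => mul_nonneg (abs_nonneg _) hB0)
              (Finset.mem_univ k)
        _ ≤ ∑ i, ∑ k, ∑ l, |X i k l| * B :=
            Finset.single_le_sum (f := fun i => ∑ k, ∑ l, |X i k l| * B)
              (fun i _ => Finset.sum_nonneg fun k _ => Finset.sum_nonneg fun l _ =>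
                mul_nonneg (abs_nonneg _) hB0)
              (Finset.mem_univ i)
    · intro i y hy
      have h1 := hV.indep i (∑ k, y k • X i k) fun z hz => by
        have := hy z hz
        rw [hlc i y z hz] at this
        exact this
      exact hXi i y h1
    · intro z hz k l
      obtain ⟨i, hi⟩ := mem_Bd.1 hz
      have hd : ∀ k, DifferentiableAt ℂ (V k) z := fun k =>
        (hV.holo k).differentiableAt (hopen.mem_nhds hz)
      rw [(hVev l i z hi).fderiv_eq, (hVev k i z hi).fderiv_eq, hV' k i z hi, hV' l i z hi,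
        lc'_fderiv hd, lc'_fderiv hd]
      unfold lc'
      simp only [map_sum, map_smul, Finset.smul_sum]
      rw [Finset.sum_comm]
      refine Finset.sum_congr rfl fun p _ => Finset.sum_congr rfl fun q _ => ?_
      rw [hV.comm z hz p q, smul_comm]
    · intro i y
      exact InfGen.congr (hV.gen i (∑ k, y k • X i k)) fun z hz => hlc i y z hz
    · intro U t hP z hz hz2 hg2
      obtain ⟨i, hi⟩ := mem_Bd.1 hz2
      obtain ⟨j, hj⟩ := mem_Bd.1 hg2
      obtain ⟨A, U', hAd, hU', hzU', hU'U, hAt⟩ := hV.trans U t hP z hz hz2 hg2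
      obtain ⟨hUo, hUR, hgd, had, hβd, hga⟩ := hA.holo U t hP
      have h1 := arrK hTAUB hA hper hV hP hz hi hj (A := A)
        (by filter_upwards [hU'.mem_nhds hzU'] with z' h using hAt z' h)
      have h2 : ∀ k, ∃ y : Fin m' → ℝ, A.mulVec (X i k) = ∑ l, y l • X j l := fun k =>
        hXs j _ ((h1 _).1 (hX i k))
      choose Y hY using h2
      refine ⟨Matrix.of fun l k => Y k l, U' ∩ (U ∩ t.g ⁻¹' ball (c j) 3) ∩ ball (c i) 3, ?_,
        ?_, ?_, ?_, ?_⟩
      · intro h0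
        obtain ⟨y, hy0, hy⟩ := Matrix.exists_mulVec_eq_zero_iff.2 h0
        apply hy0
        have h3 : A.mulVec (∑ k, y k • X i k) = 0 := by
          rw [Matrix.mulVec_sum]
          have e1 : ∀ k, A.mulVec (y k • X i k) = ∑ l, (y k * Y k l) • X j l := by
            intro k
            rw [Matrix.mulVec_smul, hY k, Finset.smul_sum]
            exact Finset.sum_congr rfl fun l _ => smul_smul _ _ _
          simp_rw [e1]
          rw [Finset.sum_comm]
          refine Finset.sum_eq_zero fun l _ => ?_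
          rw [← Finset.sum_smul]
          have h4 := congrFun hy l
          rw [Matrix.mulVec, dotProduct] at h4
          have h5 : ∑ k, y k * Y k l = 0 := by
            refine Eq.trans ?_ h4
            exact Finset.sum_congr rfl fun k _ => mul_comm _ _
          rw [h5, zero_smul]
        have h4 : ∑ k, y k • X i k = 0 := by
          by_contra hne
          exact hAd (Matrix.exists_mulVec_eq_zero_iff.1 ⟨_, hne, h3⟩)
        exact hXi i y h4
      · exact (hU'.inter (hgd.continuousOn.isOpen_inter_preimage hUo isOpen_ball)).inter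
          isOpen_ball
      · exact ⟨⟨hzU', hz, h23 j hj⟩, h23 i hi⟩
      · exact fun z' h => hU'U h.1.1
      · rintro z' ⟨⟨h3, h4, h5⟩, h6⟩ k
        rw [hV' k i z' h6, push (hAt z' h3), hY k, lc'_sum]
        refine Finset.sum_congr rfl fun l _ => ?_
        rw [hV' l j _ h5]
        rfl
  · intro k z hz
    obtain ⟨i, hi⟩ := mem_Bd.1 hz
    rw [hV' k i z hi]
    exact mem_KK.1 (hX i k) z hi

end Pool.Agent.Helper63.SP
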